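import Pool.Agent.Q93.MK.Low
import Pool.Agent.H217R3.AK.Sharp

set_option autoImplicit false

open Finset Filter Topology

namespace Pool.Agent.Q93.MK

/-- the optimal exponent for the slopes in `S` and `∞` -/
noncomputable def opt (S : Finset ℚ) : ℝ := sInf {ε : ℝ | 0 ≤ ε ∧ SD S ε}

lemma big_pos (S : Finset ℚ) {A : Finset (ℤ × ℤ)} (hA : A.Nonempty) : 1 ≤ big S A := by
  unfold big
  exact le_max_of_le_left (card_pos.2 (hA.image _))

lemma SD_one {S : Finset ℚ} (hne : S.Nonempty) (hS : (-1 : ℚ) ∉ S) : SD S 1 := by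
  classical
  intro A
  obtain ⟨r, hr⟩ := hne
  set A1 := A.image fun p : ℤ × ℤ => p.2 with hA1
  set A2 := A.image fun p : ℤ × ℤ => (p.1 : ℚ) + r * (p.2 : ℚ) with hA2
  have h1 : A1.card ≤ big S A := le_max_left _ _
  have h2 : A2.card ≤ big S A := by
    unfold big
    exact le_max_of_le_right (Finset.le_sup
      (f := fun r => (A.image fun p : ℤ × ℤ => (p.1 : ℚ) + r * (p.2 : ℚ)).card) hr)
  have h3 : (A.image fun p : ℤ × ℤ => p.1 - p.2).card ≤ (A1 ×ˢ A2).card := by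
    have : (A.image fun p : ℤ × ℤ => p.1 - p.2).image (fun z : ℤ => (z : ℚ)) ⊆
        (A1 ×ˢ A2).image fun q => q.2 - r * q.1 - q.1 := by
      intro z hz
      obtain ⟨w, hw, rfl⟩ := mem_image.1 hz
      obtain ⟨p, hp, rfl⟩ := mem_image.1 hw
      refine mem_image.2 ⟨(p.2, (p.1 : ℚ) + r * (p.2 : ℚ)), mem_product.2
        ⟨mem_image_of_mem _ hp, mem_image_of_mem (fun p : ℤ × ℤ => (p.1 : ℚ) + r * (p.2 : ℚ)) hp⟩,
        ?_⟩
      push_cast
      ring
    rw [← card_image_of_injective _ (Int.cast_injective (α := ℚ))]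
    exact (card_le_card this).trans card_image_le
  rw [card_product] at h3
  have h4 : (A.image fun p : ℤ × ℤ => p.1 - p.2).card ≤ big S A * big S A :=
    h3.trans (Nat.mul_le_mul h1 h2)
  have h5 : (big S A : ℝ) ^ ((1 : ℝ) + 1) = (big S A : ℝ) * big S A := by
    have : (1 : ℝ) + 1 = ((2 : ℕ) : ℝ) := by norm_num
    rw [this, Real.rpow_natCast, pow_two]
  rw [h5]
  exact_mod_cast h4

lemma SD_mono {S : Finset ℚ} {ε ε' : ℝ} (h0 : 0 ≤ ε) (h : ε ≤ ε') (hSD : SD S ε) : SD S ε' := by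
  intro A
  rcases A.eq_empty_or_nonempty with rfl | hA
  · simp only [image_empty, card_empty, Nat.cast_zero]
    positivity
  · refine (hSD A).trans ?_
    exact Real.rpow_le_rpow_of_exponent_le (by exact_mod_cast big_pos S hA) (by linarith)

lemma opt_bddBelow (S : Finset ℚ) : BddBelow {ε : ℝ | 0 ≤ ε ∧ SD S ε} := ⟨0, fun _ h => h.1⟩

lemma opt_nonneg (S : Finset ℚ) : 0 ≤ opt S := Real.sInf_nonneg fun _ h => h.1

lemma SD_opt {S : Finset ℚ} (hne : S.Nonempty) (hS : (-1 : ℚ) ∉ S) : SD S (opt S) := by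
  intro A
  rcases A.eq_empty_or_nonempty with rfl | hA
  · simp only [image_empty, card_empty, Nat.cast_zero]
    positivity
  have hset : {ε : ℝ | 0 ≤ ε ∧ SD S ε}.Nonempty := ⟨1, zero_le_one, SD_one hne hS⟩
  have hT : (1 : ℝ) ≤ big S A := by exact_mod_cast big_pos S hA
  have hT0 : (0 : ℝ) < big S A := by linarith
  have hcont : Tendsto (fun n : ℕ => (big S A : ℝ) ^ (1 + (opt S + 1 / ((n : ℝ) + 1)))) atTop
      (𝓝 ((big S A : ℝ) ^ (1 + (opt S + 0)))) := by
    refine Tendsto.rpow tendsto_const_nhds ?_ (Or.inl hT0.ne')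
    exact tendsto_const_nhds.add (tendsto_const_nhds.add tendsto_one_div_add_atTop_nhds_zero_nat)
  rw [add_zero] at hcont
  refine ge_of_tendsto' hcont fun n => ?_
  have hpos : (0 : ℝ) < 1 / ((n : ℝ) + 1) := by positivity
  obtain ⟨ε, hε, hlt⟩ := exists_lt_of_csInf_lt hset
    (show opt S < opt S + 1 / ((n : ℝ) + 1) by linarith)
  exact (SD_mono hε.1 hlt.le hε.2) A

lemma SD_iff_opt {S : Finset ℚ} (hne : S.Nonempty) (hS : (-1 : ℚ) ∉ S) (ε : ℝ) (hε : 0 ≤ ε) :
    SD S ε ↔ opt S ≤ ε := by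
  constructor
  · intro h
    exact csInf_le (opt_bddBelow S) ⟨hε, h⟩
  · intro h
    exact SD_mono (opt_nonneg S) h (SD_opt hne hS)

lemma opt_le_one {S : Finset ℚ} (hne : S.Nonempty) (hS : (-1 : ℚ) ∉ S) : opt S ≤ 1 :=
  csInf_le (opt_bddBelow S) ⟨zero_le_one, SD_one hne hS⟩

lemma opt_ge {S : Finset ℚ} (hne : S.Nonempty) (hS : (-1 : ℚ) ∉ S) : 1 / (S.card : ℝ) ≤ opt S := by
  classical
  have hs : 0 < S.card := card_pos.2 hne
  have hsr : (0 : ℝ) < S.card := by exact_mod_cast hs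
  obtain ⟨A, hA, -, -, h1, h2, h3⟩ := Pool.Agent.H217R3.AK.part4 S hS 2 (by norm_num)
  have hbig : big S A ≤ 2 ^ S.card := by
    unfold big
    refine max_le ?_ (Finset.sup_le fun r hr => h3 r hr)
    refine le_trans (le_of_eq ?_) h2
    rw [← card_image_of_injective (A.image fun p : ℤ × ℤ => p.2) (Int.cast_injective (α := ℚ)),
      image_image]
    rfl
  have hdif : (A.image fun p : ℤ × ℤ => p.1 - p.2).card = 2 ^ (S.card + 1) := by
    rw [← h1, ← card_image_of_injective _ (Int.cast_injective (α := ℚ)), image_image]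
    unfold Pool.Agent.H217R3.AK.proj
    congr 1
    refine image_congr fun p _ => ?_
    simp only [Function.comp]
    push_cast
    ring
  have h4 := SD_opt hne hS A
  rw [hdif] at h4
  have h5 : ((2 ^ (S.card + 1) : ℕ) : ℝ) ≤ ((2 ^ S.card : ℕ) : ℝ) ^ (1 + opt S) :=
    h4.trans (Real.rpow_le_rpow (Nat.cast_nonneg _) (by exact_mod_cast hbig)
      (by linarith [opt_nonneg S]))
  push_cast at h5
  rw [← Real.rpow_natCast, ← Real.rpow_natCast, ← Real.rpow_mul (by norm_num),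
    Real.rpow_le_rpow_left_iff (by norm_num)] at h5
  push_cast at h5
  rw [div_le_iff₀ hsr]
  linarith

lemma opt_pos {S : Finset ℚ} (hne : S.Nonempty) (hS : (-1 : ℚ) ∉ S) : 0 < opt S :=
  lt_of_lt_of_le (by have : (0 : ℝ) < S.card := by exact_mod_cast card_pos.2 hne
                     positivity) (opt_ge hne hS)

end Pool.Agent.Q93.MK
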