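import Mathlib

set_option autoImplicit false

open Finset

namespace Pool.Agent.Q93.MK

/-! # Hashing lemma for sums and differences -/

section
variable {V W G : Type*} [AddCommGroup V] [AddCommGroup W] [AddCommGroup G]
  [Fintype G] [Fintype W] [DecidableEq V] [DecidableEq W] [DecidableEq G]

omit [DecidableEq G] in
/-- the number of elements of a finite group that a surjective homomorphism sends to zero -/
lemma card_ker (φ : G →+ W) (h : Function.Surjective φ) :
    (univ.filter fun a => φ a = 0).card * Fintype.card W = Fintype.card G := by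
  have h1 := φ.ker.card_mul_index
  rw [AddSubgroup.index_ker, AddMonoidHom.range_eq_top.2 h,
    Nat.card_congr (AddSubgroup.topEquiv (G := W)).toEquiv, Nat.card_eq_fintype_card (α := W),
    Nat.card_eq_fintype_card (α := G)] at h1
  rw [← h1]
  congr 1
  rw [← Fintype.card_subtype, ← Nat.card_eq_fintype_card]
  exact Nat.card_congr (Equiv.refl _)

/-- the linear form with coefficients `f` -/
def lin {V : Type*} [AddCommGroup V] (f : ℤ × ℤ) (p : V × V) : V := f.1 • p.1 + f.2 • p.2

/-- the largest size of an image under a form of the family -/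
def bigF {V : Type*} [AddCommGroup V] [DecidableEq V] (F : Finset (ℤ × ℤ)) (A : Finset (V × V)) :
    ℕ := F.sup fun f => (A.image (lin f)).card

/-- the set of differences -/
def dif {V : Type*} [AddCommGroup V] [DecidableEq V] (A : Finset (V × V)) : Finset V :=
  A.image fun p => p.1 - p.2

/-- the number of representations of a difference -/
def rep {V : Type*} [AddCommGroup V] [DecidableEq V] (A : Finset (V × V)) (d : V) : ℕ :=
  (A.filter fun p => p.1 - p.2 = d).card

omit [Fintype G] [Fintype W] [AddCommGroup G] [DecidableEq G] [DecidableEq W] [AddCommGroup W] in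
lemma bigF_mono {F : Finset (ℤ × ℤ)} {A B : Finset (V × V)} (h : A ⊆ B) :
    bigF F A ≤ bigF F B := by
  unfold bigF
  exact Finset.sup_mono_fun fun f _ => card_le_card (image_subset_image h)

omit [Fintype G] [Fintype W] [AddCommGroup G] [DecidableEq G] [DecidableEq W] [AddCommGroup W] in
lemma le_bigF {F : Finset (ℤ × ℤ)} {A : Finset (V × V)} {f : ℤ × ℤ} (hf : f ∈ F) :
    (A.image (lin f)).card ≤ bigF F A :=
  Finset.le_sup (f := fun f => (A.image (lin f)).card) hf

omit [Fintype W] [DecidableEq V] [DecidableEq W] in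
lemma lin_hom (φ : V →+ W) (f : ℤ × ℤ) (p : V × V) :
    φ (lin f p) = f.1 • φ p.1 + f.2 • φ p.2 := by
  simp [lin]

/-- the hashing lemma: all fibres have exactly `g` elements -/
lemma hash_exact (Φ : G →+ (V →+ W)) (F : Finset (ℤ × ℤ)) (hF : F.Nonempty)
    (B : Finset (V × V)) (hB : B.Nonempty) (g : ℕ)
    (hrep : ∀ d ∈ dif B, rep B d = g) (hg : 4 * g ≤ Fintype.card W)
    (h1 : ∀ f ∈ F, ∀ w ∈ B.image (lin f), ∀ w' ∈ B.image (lin f), w ≠ w' →
      Function.Surjective fun a => Φ a (w - w'))
    (h2 : ∀ p ∈ B, ∀ q ∈ B, p.1 - p.2 = q.1 - q.2 → p ≠ q →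
      Function.Surjective fun a => Φ a (p.1 - q.1)) :
    ∃ C ⊆ B, (dif B).card * g ≤ 2 * Fintype.card W ^ 2 * (dif C).card ∧
      ∀ f ∈ F, Fintype.card W * (C.image (lin f)).card ≤
        Fintype.card W + 4 * F.card * bigF F B := by
  classical
  set Q := Fintype.card W with hQ
  set T := bigF F B with hT
  have hTpos : 0 < T := by
    obtain ⟨f, hf⟩ := hF
    exact lt_of_lt_of_le (card_pos.2 (hB.image _)) (le_bigF hf)
  have hGpos : 0 < Fintype.card G := Fintype.card_pos
  have hQpos : 0 < Q := Fintype.card_pos
  -- kernel counts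
  have hker : ∀ v : V, (Function.Surjective fun a => Φ a v) →
      (univ.filter fun a => Φ a v = 0).card * Q = Fintype.card G := by
    intro v hv
    exact card_ker ((AddMonoidHom.flip Φ) v) hv
  -- bad events
  let bad1 : G → V × V → Prop := fun a p =>
    ∃ q ∈ B, q.1 - q.2 = p.1 - p.2 ∧ q ≠ p ∧ Φ a q.1 = Φ a p.1
  let cnt : G → ℤ × ℤ → V → ℕ := fun a f w0 =>
    ((B.image (lin f)).filter fun w => w ≠ w0 ∧ Φ a w = Φ a w0).card
  let bad2 : G → ℤ × ℤ → V × V → Prop := fun a f p => 4 * F.card * T < Q * cnt a f (lin f p)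
  have hb1 : ∀ p ∈ B, 4 * (univ.filter fun a => bad1 a p).card ≤ Fintype.card G := by
    intro p hp
    set Fb := B.filter fun q => q.1 - q.2 = p.1 - p.2 with hFb
    have hFbc : Fb.card = g := hrep _ (mem_image_of_mem _ hp)
    have hsub : (univ.filter fun a => bad1 a p) ⊆
        (Fb.erase p).biUnion fun q => univ.filter fun a => Φ a (q.1 - p.1) = 0 := by
      intro a ha
      obtain ⟨q, hq, hd, hne, he⟩ := (mem_filter.1 ha).2
      refine mem_biUnion.2 ⟨q, mem_erase.2 ⟨hne, mem_filter.2 ⟨hq, hd⟩⟩, ?_⟩
      simp [he]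
    have hle : (univ.filter fun a => bad1 a p).card * Q ≤ g * Fintype.card G := by
      calc (univ.filter fun a => bad1 a p).card * Q
          ≤ (∑ q ∈ Fb.erase p, (univ.filter fun a => Φ a (q.1 - p.1) = 0).card) * Q :=
            Nat.mul_le_mul_right _ ((card_le_card hsub).trans card_biUnion_le)
        _ = ∑ q ∈ Fb.erase p, (univ.filter fun a => Φ a (q.1 - p.1) = 0).card * Q := by
            rw [sum_mul]
        _ = ∑ q ∈ Fb.erase p, Fintype.card G := by
            refine sum_congr rfl fun q hq => hker _ ?_
            have hq' := mem_erase.1 hq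
            exact h2 q (mem_filter.1 hq'.2).1 p hp (mem_filter.1 hq'.2).2 hq'.1
        _ ≤ g * Fintype.card G := by
            rw [sum_const, smul_eq_mul]
            exact Nat.mul_le_mul_right _ (by rw [← hFbc]; exact card_le_card (erase_subset _ _))
    have : 4 * (univ.filter fun a => bad1 a p).card * Q ≤ Fintype.card G * Q := by
      calc 4 * (univ.filter fun a => bad1 a p).card * Q
          = 4 * ((univ.filter fun a => bad1 a p).card * Q) := by ring
        _ ≤ 4 * (g * Fintype.card G) := Nat.mul_le_mul_left _ hle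
        _ = (4 * g) * Fintype.card G := by ring
        _ ≤ Q * Fintype.card G := Nat.mul_le_mul_right _ hg
        _ = Fintype.card G * Q := mul_comm _ _
    exact Nat.le_of_mul_le_mul_right this hQpos
  have hb2 : ∀ f ∈ F, ∀ p ∈ B,
      4 * F.card * (univ.filter fun a => bad2 a f p).card ≤ Fintype.card G := by
    intro f hf p hp
    set w0 := lin f p with hw0
    have hw0m : w0 ∈ B.image (lin f) := mem_image_of_mem _ hp
    -- total
    have htot : Q * ∑ a : G, cnt a f w0 ≤ T * Fintype.card G := by
      have hsw : ∑ a : G, cnt a f w0 =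
          ∑ w ∈ (B.image (lin f)).erase w0, (univ.filter fun a => Φ a (w - w0) = 0).card := by
        have e1 : ∀ a : G, cnt a f w0 =
            ∑ w ∈ (B.image (lin f)).erase w0, if Φ a (w - w0) = 0 then 1 else 0 := by
          intro a
          rw [← card_filter]
          show ((B.image (lin f)).filter fun w => w ≠ w0 ∧ Φ a w = Φ a w0).card = _
          congr 1
          ext w
          simp only [mem_filter, mem_erase, map_sub, sub_eq_zero]
          tauto
        simp_rw [e1]
        rw [sum_comm]
        refine sum_congr rfl fun w _ => ?_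
        rw [card_filter]
      rw [hsw, mul_sum]
      calc ∑ w ∈ (B.image (lin f)).erase w0, Q * (univ.filter fun a => Φ a (w - w0) = 0).card
          = ∑ w ∈ (B.image (lin f)).erase w0, Fintype.card G := by
            refine sum_congr rfl fun w hw => ?_
            have hw' := mem_erase.1 hw
            rw [mul_comm]
            exact hker _ (h1 f hf w hw'.2 w0 hw0m hw'.1)
        _ ≤ T * Fintype.card G := by
            rw [sum_const, smul_eq_mul]
            exact Nat.mul_le_mul_right _ ((card_le_card (erase_subset _ _)).trans (le_bigF hf))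
    have hm : (univ.filter fun a => bad2 a f p).card * (4 * F.card * T) ≤
        Q * ∑ a : G, cnt a f w0 := by
      rw [mul_sum, ← smul_eq_mul, ← sum_const]
      calc ∑ a ∈ univ.filter (fun a => bad2 a f p), 4 * F.card * T
          ≤ ∑ a ∈ univ.filter (fun a => bad2 a f p), Q * cnt a f w0 :=
            sum_le_sum fun a ha => (mem_filter.1 ha).2.le
        _ ≤ ∑ a : G, Q * cnt a f w0 :=
            sum_le_sum_of_subset (filter_subset _ _)
    have : (4 * F.card * (univ.filter fun a => bad2 a f p).card) * T ≤ Fintype.card G * T := by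
      calc (4 * F.card * (univ.filter fun a => bad2 a f p).card) * T
          = (univ.filter fun a => bad2 a f p).card * (4 * F.card * T) := by ring
        _ ≤ _ := hm
        _ ≤ _ := htot
        _ = Fintype.card G * T := mul_comm _ _
    exact Nat.le_of_mul_le_mul_right this hTpos
  -- good points
  let good : G → V × V → Prop := fun a p => ¬ bad1 a p ∧ ∀ f ∈ F, ¬ bad2 a f p
  have hgood : ∀ p ∈ B, Fintype.card G ≤ 2 * (univ.filter fun a => good a p).card := by
    intro p hp
    have hcov : (univ : Finset G) ⊆ (univ.filter fun a => good a p) ∪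
        ((univ.filter fun a => bad1 a p) ∪ F.biUnion fun f => univ.filter fun a => bad2 a f p) := by
      intro a _
      by_cases h : good a p
      · exact mem_union_left _ (mem_filter.2 ⟨mem_univ _, h⟩)
      · refine mem_union_right _ ?_
        by_cases hb : bad1 a p
        · exact mem_union_left _ (mem_filter.2 ⟨mem_univ _, hb⟩)
        · have : ∃ f ∈ F, bad2 a f p := by
            by_contra hcon
            push Not at hcon
            exact h ⟨hb, hcon⟩
          obtain ⟨f, hf, hbf⟩ := this
          exact mem_union_right _ (mem_biUnion.2 ⟨f, hf, mem_filter.2 ⟨mem_univ _, hbf⟩⟩)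
    have h3 : Fintype.card G ≤ (univ.filter fun a => good a p).card +
        ((univ.filter fun a => bad1 a p).card + ∑ f ∈ F, (univ.filter fun a => bad2 a f p).card) := by
      calc Fintype.card G = (univ : Finset G).card := (card_univ).symm
        _ ≤ _ := card_le_card hcov
        _ ≤ _ := card_union_le _ _
        _ ≤ _ := Nat.add_le_add_left ((card_union_le _ _).trans
            (Nat.add_le_add_left card_biUnion_le _)) _
    have h4 : 4 * ∑ f ∈ F, (univ.filter fun a => bad2 a f p).card ≤ Fintype.card G := by
      have hFc : 0 < F.card := card_pos.2 hF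
      have : F.card * (4 * ∑ f ∈ F, (univ.filter fun a => bad2 a f p).card) ≤
          F.card * Fintype.card G := by
        calc F.card * (4 * ∑ f ∈ F, (univ.filter fun a => bad2 a f p).card)
            = ∑ f ∈ F, 4 * F.card * (univ.filter fun a => bad2 a f p).card := by
              rw [mul_sum, mul_sum]
              exact sum_congr rfl fun f _ => by ring
          _ ≤ ∑ f ∈ F, Fintype.card G := sum_le_sum fun f hf => hb2 f hf p hp
          _ = F.card * Fintype.card G := by rw [sum_const, smul_eq_mul]
      exact Nat.le_of_mul_le_mul_left this hFc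
    have h5 := hb1 p hp
    omega
  -- choose a
  obtain ⟨a, ha⟩ : ∃ a : G, B.card ≤ 2 * (B.filter fun p => good a p).card := by
    by_contra hcon
    push Not at hcon
    have e1 : ∑ a : G, (B.filter fun p => good a p).card =
        ∑ p ∈ B, (univ.filter fun a => good a p).card := by
      simp_rw [card_filter]
      rw [sum_comm]
    have e2 : 2 * ∑ a : G, (B.filter fun p => good a p).card < Fintype.card G * B.card := by
      rw [mul_sum]
      calc ∑ a : G, 2 * (B.filter fun p => good a p).card < ∑ _a : G, B.card :=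
            sum_lt_sum_of_nonempty univ_nonempty fun a _ => hcon a
        _ = Fintype.card G * B.card := by rw [sum_const, smul_eq_mul, card_univ]
    have e3 : Fintype.card G * B.card ≤ 2 * ∑ p ∈ B, (univ.filter fun a => good a p).card := by
      rw [mul_sum]
      calc Fintype.card G * B.card = ∑ p ∈ B, Fintype.card G := by
            rw [sum_const, smul_eq_mul, mul_comm]
        _ ≤ _ := sum_le_sum fun p hp => hgood p hp
    rw [← e1] at e3
    omega
  -- classes
  set B' := B.filter fun p => good a p with hB'
  let cls : W × W → Finset (V × V) := fun z => B'.filter fun p => (Φ a p.1, Φ a p.2) = z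
  have hsum : B'.card = ∑ z : W × W, (cls z).card :=
    card_eq_sum_card_fiberwise (f := fun p : V × V => (Φ a p.1, Φ a p.2)) (t := univ)
      (fun _ _ => mem_coe.2 (mem_univ _))
  obtain ⟨z, hz⟩ : ∃ z : W × W, B'.card ≤ Q ^ 2 * (cls z).card := by
    by_contra hcon
    push Not at hcon
    have : Q ^ 2 * ∑ z : W × W, (cls z).card < Fintype.card (W × W) * B'.card := by
      rw [mul_sum]
      calc ∑ z : W × W, Q ^ 2 * (cls z).card < ∑ _z : W × W, B'.card :=
            sum_lt_sum_of_nonempty univ_nonempty fun z _ => hcon z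
        _ = _ := by rw [sum_const, smul_eq_mul, card_univ]
    rw [← hsum, Fintype.card_prod, ← pow_two] at this
    exact lt_irrefl _ this
  have hsubB : cls z ⊆ B := (filter_subset _ _).trans (filter_subset _ _)
  have hinj : (dif (cls z)).card = (cls z).card := by
    unfold dif
    refine card_image_of_injOn ?_
    intro p hp q hq hpq
    by_contra hne
    have hp' := mem_filter.1 (mem_coe.1 hp)
    have hq' := mem_filter.1 (mem_coe.1 hq)
    have hpg := mem_filter.1 hp'.1
    have hqg := mem_filter.1 hq'.1
    refine hpg.2.1 ⟨q, hqg.1, hpq.symm, fun h => hne h.symm, ?_⟩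
    have e := hp'.2.trans hq'.2.symm
    exact (congrArg Prod.fst e).symm
  refine ⟨cls z, hsubB, ?_, ?_⟩
  · have hBc : B.card = (dif B).card * g := by
      have := card_eq_sum_card_fiberwise (s := B) (f := fun p : V × V => p.1 - p.2) (t := dif B)
        (fun p hp => mem_coe.2 (mem_image_of_mem _ (mem_coe.1 hp)))
      rw [this, ← smul_eq_mul, ← sum_const]
      exact sum_congr rfl fun d hd => hrep d hd
    rw [← hBc, hinj]
    calc B.card ≤ 2 * B'.card := ha
      _ ≤ 2 * (Q ^ 2 * (cls z).card) := Nat.mul_le_mul_left _ hz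
      _ = 2 * Q ^ 2 * (cls z).card := by ring
  · intro f hf
    rcases (cls z).eq_empty_or_nonempty with he | ⟨p, hp⟩
    · rw [he]; simp
    · have hp' := mem_filter.1 hp
      have hpg := mem_filter.1 hp'.1
      have hnb := hpg.2.2 f hf
      have hnb' : Q * cnt a f (lin f p) ≤ 4 * F.card * T := not_lt.1 hnb
      have hsub : (cls z).image (lin f) ⊆ insert (lin f p)
          ((B.image (lin f)).filter fun w => w ≠ lin f p ∧ Φ a w = Φ a (lin f p)) := by
        intro w hw
        obtain ⟨q, hq, rfl⟩ := mem_image.1 hw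
        have hq' := mem_filter.1 hq
        have e := hq'.2.trans hp'.2.symm
        have e1 : Φ a q.1 = Φ a p.1 := congrArg Prod.fst e
        have e2 : Φ a q.2 = Φ a p.2 := congrArg Prod.snd e
        by_cases hwp : lin f q = lin f p
        · rw [hwp]; exact mem_insert_self _ _
        · refine mem_insert_of_mem (mem_filter.2 ⟨mem_image_of_mem _ (hsubB hq), hwp, ?_⟩)
          rw [lin_hom, lin_hom, e1, e2]
      have hc : ((cls z).image (lin f)).card ≤ cnt a f (lin f p) + 1 :=
        (card_le_card hsub).trans (card_insert_le _ _)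
      calc Q * ((cls z).image (lin f)).card ≤ Q * (cnt a f (lin f p) + 1) :=
            Nat.mul_le_mul_left _ hc
        _ = Q * cnt a f (lin f p) + Q := by ring
        _ ≤ 4 * F.card * T + Q := Nat.add_le_add_right hnb' _
        _ = Q + 4 * F.card * T := by ring

/-- the hashing lemma for sets whose fibres have at least `g` elements -/
lemma hash (Φ : G →+ (V →+ W)) (F : Finset (ℤ × ℤ)) (hF : F.Nonempty)
    (B : Finset (V × V)) (hB : B.Nonempty) (g : ℕ) (hg0 : 0 < g)
    (hrep : ∀ d ∈ dif B, g ≤ rep B d) (hg : 4 * g ≤ Fintype.card W)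
    (h1 : ∀ f ∈ F, ∀ w ∈ B.image (lin f), ∀ w' ∈ B.image (lin f), w ≠ w' →
      Function.Surjective fun a => Φ a (w - w'))
    (h2 : ∀ p ∈ B, ∀ q ∈ B, p.1 - p.2 = q.1 - q.2 → p ≠ q →
      Function.Surjective fun a => Φ a (p.1 - q.1)) :
    ∃ C ⊆ B, (dif B).card * g ≤ 2 * Fintype.card W ^ 2 * (dif C).card ∧
      ∀ f ∈ F, Fintype.card W * (C.image (lin f)).card ≤
        Fintype.card W + 4 * F.card * bigF F B := by
  classical
  have hch : ∀ d : V, ∃ E : Finset (V × V), d ∈ dif B →
      (E ⊆ B.filter fun p => p.1 - p.2 = d) ∧ E.card = g := by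
    intro d
    by_cases hd : d ∈ dif B
    · obtain ⟨E, hE1, hE2⟩ := exists_subset_card_eq (hrep d hd)
      exact ⟨E, fun _ => ⟨hE1, hE2⟩⟩
    · exact ⟨∅, fun h => absurd h hd⟩
  choose E hE using hch
  set B' := (dif B).biUnion E with hB'
  have hsub : B' ⊆ B := by
    intro p hp
    obtain ⟨d, hd, hpd⟩ := mem_biUnion.1 hp
    exact (mem_filter.1 ((hE d hd).1 hpd)).1
  have hfib : ∀ d ∈ dif B, (B'.filter fun p => p.1 - p.2 = d) = E d := by
    intro d hd
    ext p
    constructor
    · intro hp
      obtain ⟨hp1, hp2⟩ := mem_filter.1 hp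
      obtain ⟨d', hd', hpd⟩ := mem_biUnion.1 hp1
      have := (mem_filter.1 ((hE d' hd').1 hpd)).2
      rw [← hp2, this]; exact hpd
    · intro hp
      exact mem_filter.2 ⟨mem_biUnion.2 ⟨d, hd, hp⟩, (mem_filter.1 ((hE d hd).1 hp)).2⟩
  have hdif : dif B' = dif B := by
    apply Subset.antisymm
    · exact image_subset_image hsub
    · intro d hd
      have hne : (E d).Nonempty := card_pos.1 (by rw [(hE d hd).2]; exact hg0)
      obtain ⟨p, hp⟩ := hne
      refine mem_image.2 ⟨p, mem_biUnion.2 ⟨d, hd, hp⟩, (mem_filter.1 ((hE d hd).1 hp)).2⟩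
  have hB'ne : B'.Nonempty := by
    have : (dif B').Nonempty := by rw [hdif]; exact hB.image _
    exact image_nonempty.1 this
  have hrep' : ∀ d ∈ dif B', rep B' d = g := by
    intro d hd
    rw [hdif] at hd
    unfold rep
    rw [hfib d hd]
    exact (hE d hd).2
  obtain ⟨C, hC, hC1, hC2⟩ := hash_exact Φ F hF B' hB'ne g hrep' hg
    (fun f hf w hw w' hw' hne => h1 f hf w (image_subset_image hsub hw) w'
      (image_subset_image hsub hw') hne)
    (fun p hp q hq => h2 p (hsub hp) q (hsub hq))
  refine ⟨C, hC.trans hsub, ?_, fun f hf => (hC2 f hf).trans ?_⟩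
  · rw [← hdif]; exact hC1
  · exact Nat.add_le_add_left (Nat.mul_le_mul_left _ (bigF_mono hsub)) _

end

end Pool.Agent.Q93.MK
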