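import Pool.Agent.Q93.MK.Exp

set_option autoImplicit false

open Finset Filter Topology

namespace Pool.Agent.Q93.MK

lemma ev_rpow (a c : ℝ) (ha : 0 < a) : ∀ᶠ N : ℕ in atTop, c ≤ (N : ℝ) ^ a :=
  ((tendsto_rpow_atTop ha).comp tendsto_natCast_atTop_atTop).eventually_ge_atTop c

/-- **upper bound for the number of choices with small projections** -/
theorem law_upper {S : Finset ℚ} (hS : (-1 : ℚ) ∉ S) {ε : ℝ} (hε : 0 < ε) (h : SD S ε)
    (θ : ℝ) (hθ : 0 < θ) (b : ℕ) (δ : ℝ) (hδ : 0 < δ) :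
    ∀ᶠ N : ℕ in atTop, ∀ D P : Finset ℤ, D.card = N → P.card ≤ N ^ b →
      (bad S D P ((N : ℝ) ^ (1 - θ)) : ℝ) ≤ (N : ℝ) ^ ((1 - θ * (1 + ε) / ε + δ) * N) := by
  filter_upwards [ev_rpow θ (((b + 2) * (S.card + 1) : ℝ) / δ) hθ, eventually_ge_atTop 2]
    with N h1 hN2 D P hD hP
  have hN0 : (0 : ℝ) < N := by exact_mod_cast (by omega : 0 < N)
  have hN1 : (1 : ℝ) ≤ N := by exact_mod_cast (by omega : 1 ≤ N)
  set K := ⌊(N : ℝ) ^ (1 - θ)⌋₊ with hK
  have hKle : (K : ℝ) ≤ (N : ℝ) ^ (1 - θ) := Nat.floor_le (by positivity)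
  have hbad : bad S D P ((N : ℝ) ^ (1 - θ)) ≤ bad S D P (K : ℝ) := by
    unfold bad
    refine card_le_card fun y hy => ?_
    rw [mem_filter] at hy ⊢
    exact ⟨hy.1, by exact_mod_cast Nat.le_floor hy.2⟩
  have hDne : D.Nonempty := card_pos.1 (by omega)
  have h2 := bad_le hS hε h D P hDne K
  have h3 : (bad S D P ((N : ℝ) ^ (1 - θ)) : ℝ) ≤
      ((D.card * P.card + 1 : ℕ) : ℝ) ^ ((S.card + 1) * K) *
        (((K : ℝ) ^ (1 + ε) / D.card) ^ (1 / ε)) ^ D.card :=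
    le_trans (by exact_mod_cast hbad) h2
  rw [hD] at h3
  refine h3.trans ?_
  have e1 : ((N * P.card + 1 : ℕ) : ℝ) ^ ((S.card + 1) * K) ≤ (N : ℝ) ^ (δ * N) := by
    have a1 : N * P.card + 1 ≤ N ^ (b + 2) := by
      calc N * P.card + 1 ≤ N * N ^ b + 1 := Nat.succ_le_succ (Nat.mul_le_mul_left _ hP)
        _ ≤ N * N ^ b + N * N ^ b :=
            Nat.add_le_add_left (Nat.one_le_iff_ne_zero.2 (by positivity)) _
        _ = 2 * (N * N ^ b) := by ring
        _ ≤ N * (N * N ^ b) := Nat.mul_le_mul_right _ hN2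
        _ = N ^ (b + 2) := by ring
    calc ((N * P.card + 1 : ℕ) : ℝ) ^ ((S.card + 1) * K)
        ≤ ((N ^ (b + 2) : ℕ) : ℝ) ^ ((S.card + 1) * K) :=
          pow_le_pow_left₀ (Nat.cast_nonneg _) (by exact_mod_cast a1) _
      _ = (N : ℝ) ^ ((((b + 2) * ((S.card + 1) * K) : ℕ)) : ℝ) := by
          rw [Real.rpow_natCast, pow_mul (N : ℝ) (b + 2) ((S.card + 1) * K), Nat.cast_pow]
      _ ≤ (N : ℝ) ^ (δ * N) := by
          refine Real.rpow_le_rpow_of_exponent_le hN1 ?_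
          push_cast
          have a2 : ((b + 2) * (S.card + 1) : ℝ) ≤ δ * (N : ℝ) ^ θ := by
            rw [div_le_iff₀ hδ] at h1
            linarith
          calc ((b : ℝ) + 2) * (((S.card : ℝ) + 1) * K)
              = ((b + 2) * (S.card + 1) : ℝ) * K := by ring
            _ ≤ (δ * (N : ℝ) ^ θ) * (N : ℝ) ^ (1 - θ) :=
                mul_le_mul a2 hKle (Nat.cast_nonneg _) (by positivity)
            _ = δ * N := by
                rw [mul_assoc, ← Real.rpow_add hN0]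
                simp
  have e2 : ((K : ℝ) ^ (1 + ε) / (N : ℝ)) ^ (1 / ε) ≤ (N : ℝ) ^ (1 - θ * (1 + ε) / ε) := by
    calc ((K : ℝ) ^ (1 + ε) / (N : ℝ)) ^ (1 / ε)
        ≤ (((N : ℝ) ^ (1 - θ)) ^ (1 + ε) / (N : ℝ)) ^ (1 / ε) := by
          refine Real.rpow_le_rpow (by positivity) ?_ (by positivity)
          refine div_le_div_of_nonneg_right ?_ hN0.le
          exact Real.rpow_le_rpow (Nat.cast_nonneg _) hKle (by linarith)
      _ = (N : ℝ) ^ (1 - θ * (1 + ε) / ε) := by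
          rw [← Real.rpow_mul hN0.le]
          nth_rewrite 2 [← Real.rpow_one (N : ℝ)]
          rw [← Real.rpow_sub hN0, ← Real.rpow_mul hN0.le]
          congr 1
          field_simp
          ring
  calc ((N * P.card + 1 : ℕ) : ℝ) ^ ((S.card + 1) * K) *
        (((K : ℝ) ^ (1 + ε) / (N : ℝ)) ^ (1 / ε)) ^ N
      ≤ (N : ℝ) ^ (δ * N) * ((N : ℝ) ^ (1 - θ * (1 + ε) / ε)) ^ N := by
        refine mul_le_mul e1 (pow_le_pow_left₀ (by positivity) e2 _) (by positivity)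
          (by positivity)
    _ = (N : ℝ) ^ ((1 - θ * (1 + ε) / ε + δ) * N) := by
        rw [← Real.rpow_natCast, ← Real.rpow_mul hN0.le, ← Real.rpow_add hN0]
        congr 1
        ring

/-- **many choices with small projections** -/
theorem law_lower {S : Finset ℚ} {ε : ℝ} (hε : 0 < ε) (h : ¬ SD S ε)
    (θ : ℝ) (hθ : 0 < θ) (hθε : θ * (1 + ε) < ε) (δ : ℝ) (hδ : 0 < δ) :
    ∀ᶠ N : ℕ in atTop, ∃ D P : Finset ℤ, D.card = N ∧ P.card ≤ N ∧
      (N : ℝ) ^ ((1 - θ * (1 + ε) / ε - δ) * N) ≤ (bad S D P ((N : ℝ) ^ (1 - θ)) : ℝ) := by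
  classical
  obtain ⟨c, hc1, hc⟩ := box_big S
  have h' : ∃ A0 : Finset (ℤ × ℤ), (bigF (forms S) A0 : ℝ) ^ (1 + ε) < ((dif A0).card : ℝ) := by
    by_contra hcon
    push Not at hcon
    exact h ((SD_iff S ε).2 hcon)
  obtain ⟨A0, hA0⟩ := h'
  set T := bigF (forms S) A0 with hT
  set M0 := (dif A0).card with hM0
  have hA0ne : A0.Nonempty := by
    rw [nonempty_iff_ne_empty]
    rintro rfl
    have : (M0 : ℝ) = 0 := by simp [hM0, dif]
    rw [this] at hA0
    exact absurd hA0 (not_lt.2 (by positivity))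
  have hT1 : 1 ≤ T := by rw [hT, bigF_forms]; exact big_pos S hA0ne
  have hT1r : (1 : ℝ) ≤ T := by exact_mod_cast hT1
  have hM0r : (1 : ℝ) < M0 := lt_of_le_of_lt (Real.one_le_rpow hT1r (by linarith)) hA0
  have hM0pos : (0 : ℝ) < M0 := by linarith
  set κ := ε / (1 + ε) with hκ
  have hκ0 : 0 < κ := by positivity
  have hκ1 : κ < 1 := by rw [hκ, div_lt_one (by linarith)]; linarith
  have hκe : 1 - κ = 1 / (1 + ε) := by rw [hκ]; field_simp; ring
  have hTle : (T : ℝ) ≤ (M0 : ℝ) ^ (1 - κ) := by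
    have h1 : (T : ℝ) = ((T : ℝ) ^ (1 + ε)) ^ (1 - κ) := by
      rw [← Real.rpow_mul (by linarith), hκe, mul_one_div_cancel (by linarith), Real.rpow_one]
    rw [h1]
    exact Real.rpow_le_rpow (by positivity) hA0.le (by linarith)
  have hθκ : θ / κ = θ * (1 + ε) / ε := by rw [hκ]; field_simp
  have hθκ1 : θ / κ < 1 := by rw [hθκ, div_lt_one hε]; exact hθε
  set δ' := min (δ / 2) ((1 - θ / κ) / 2) with hδ'
  have hδ'0 : 0 < δ' := lt_min (by linarith) (by linarith)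
  have hδ'1 : δ' ≤ δ / 2 := min_le_left _ _
  have hδ'2 : δ' ≤ (1 - θ / κ) / 2 := min_le_right _ _
  set β := θ / κ + δ' with hβ
  have hβ0 : 0 < β := by positivity
  have hβ1 : β < 1 := by linarith
  filter_upwards [ev_rpow (δ' * κ) (2 * c) (by positivity), ev_rpow δ' M0 hδ'0,
    ev_rpow (1 - β) M0 (by linarith), eventually_ge_atTop 2] with N h1 h2 h3 hN2
  have hN0 : (0 : ℝ) < N := by exact_mod_cast (by omega : 0 < N)
  have hN1 : (1 : ℝ) ≤ N := by exact_mod_cast (by omega : 1 ≤ N)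
  have hlogM : 0 < Real.log M0 := Real.log_pos hM0r
  have hlogN : 0 ≤ Real.log N := Real.log_nonneg hN1
  set j := ⌈β * Real.log N / Real.log M0⌉₊ with hj
  have hj1 : β * Real.log N / Real.log M0 ≤ j := Nat.le_ceil _
  have hj2 : (j : ℝ) < β * Real.log N / Real.log M0 + 1 := Nat.ceil_lt_add_one (by positivity)
  set M : ℝ := (M0 : ℝ) ^ j with hM
  have hMpos : 0 < M := pow_pos hM0pos j
  have hMlog : M = Real.exp (j * Real.log M0) := by
    rw [hM, mul_comm, Real.exp_mul, Real.exp_log hM0pos, Real.rpow_natCast]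
  have hNβ : (N : ℝ) ^ β = Real.exp (β * Real.log N) := by
    rw [Real.rpow_def_of_pos hN0, mul_comm]
  have hM1 : (N : ℝ) ^ β ≤ M := by
    rw [hMlog, hNβ]
    refine Real.exp_le_exp.2 ?_
    rw [div_le_iff₀ hlogM] at hj1
    exact hj1
  have hM2 : M ≤ M0 * (N : ℝ) ^ β := by
    have e1 : (M0 : ℝ) * (N : ℝ) ^ β = Real.exp (Real.log M0 + β * Real.log N) := by
      rw [Real.exp_add, Real.exp_log hM0pos, hNβ]
    rw [hMlog, e1]
    refine Real.exp_le_exp.2 ?_
    have e2 : (j : ℝ) * Real.log M0 ≤ (β * Real.log N / Real.log M0 + 1) * Real.log M0 :=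
      mul_le_mul_of_nonneg_right hj2.le hlogM.le
    rw [add_mul, div_mul_cancel₀ _ hlogM.ne', one_mul] at e2
    linarith
  have hMN : M ≤ N := by
    calc M ≤ M0 * (N : ℝ) ^ β := hM2
      _ ≤ (N : ℝ) ^ (1 - β) * (N : ℝ) ^ β := mul_le_mul_of_nonneg_right h3 (by positivity)
      _ = N := by rw [← Real.rpow_add hN0]; simp
  set n := ⌈(N : ℝ) / M⌉₊ with hn
  have hn1 : (N : ℝ) / M ≤ n := Nat.le_ceil _
  have hNM1 : 1 ≤ (N : ℝ) / M := (one_le_div hMpos).2 hMN
  have hn2 : (n : ℝ) ≤ 2 * (N / M) := by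
    have := Nat.ceil_lt_add_one (show (0 : ℝ) ≤ N / M by positivity)
    rw [← hn] at this
    linarith
  have hnpos : 1 ≤ n := by
    have : (1 : ℝ) ≤ n := hNM1.trans hn1
    exact_mod_cast this
  have hNn : N ≤ n * M0 ^ j := by
    have : (N : ℝ) ≤ n * M := by rwa [div_le_iff₀ hMpos] at hn1
    rw [hM] at this
    exact_mod_cast this
  obtain ⟨D, P, hD, hP, hbad⟩ := low_finite S A0 c hc j n N hnpos hNn
  have hTj : (T : ℝ) ^ j ≤ M ^ (1 - κ) := by
    calc (T : ℝ) ^ j ≤ ((M0 : ℝ) ^ (1 - κ)) ^ j := pow_le_pow_left₀ (by positivity) hTle j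
      _ = M ^ (1 - κ) := by
        rw [hM, ← Real.rpow_natCast, ← Real.rpow_natCast, ← Real.rpow_mul hM0pos.le,
          ← Real.rpow_mul hM0pos.le, mul_comm]
  have hcr : (1 : ℝ) ≤ c := by exact_mod_cast hc1
  have hkey : (c : ℝ) * n * (T : ℝ) ^ j ≤ (N : ℝ) ^ (1 - θ) := by
    calc (c : ℝ) * n * (T : ℝ) ^ j ≤ c * (2 * (N / M)) * M ^ (1 - κ) := by
          refine mul_le_mul (mul_le_mul_of_nonneg_left hn2 (by positivity)) hTj (by positivity)
            (by positivity)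
      _ = 2 * c * N * M ^ (-κ) := by
          have : M ^ (1 - κ) = M * M ^ (-κ) := by
            rw [sub_eq_add_neg, Real.rpow_add hMpos, Real.rpow_one]
          rw [this]
          field_simp
      _ ≤ 2 * c * N * ((N : ℝ) ^ β) ^ (-κ) := by
          refine mul_le_mul_of_nonneg_left ?_ (by positivity)
          exact Real.rpow_le_rpow_of_nonpos (by positivity) hM1 (by linarith)
      _ = 2 * c * ((N : ℝ) ^ (1 - θ) * (N : ℝ) ^ (-(δ' * κ))) := by
          rw [← Real.rpow_mul hN0.le, ← Real.rpow_add hN0]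
          have e1 : (N : ℝ) * (N : ℝ) ^ (β * -κ) = (N : ℝ) ^ (1 - θ + -(δ' * κ)) := by
            nth_rewrite 1 [← Real.rpow_one (N : ℝ)]
            rw [← Real.rpow_add hN0]
            congr 1
            rw [hβ]
            field_simp
            ring
          rw [mul_assoc, e1]
      _ ≤ (N : ℝ) ^ (δ' * κ) * ((N : ℝ) ^ (1 - θ) * (N : ℝ) ^ (-(δ' * κ))) :=
          mul_le_mul_of_nonneg_right h1 (by positivity)
      _ = (N : ℝ) ^ (1 - θ) := by
          rw [Real.rpow_neg hN0.le]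
          field_simp
  refine ⟨D, P, hD, ?_, ?_⟩
  · have e1 : (P.card : ℝ) ≤ N := by
      calc (P.card : ℝ) ≤ n * (T : ℝ) ^ j := by exact_mod_cast hP
        _ ≤ c * (n * (T : ℝ) ^ j) := le_mul_of_one_le_left (by positivity) hcr
        _ = c * n * (T : ℝ) ^ j := by ring
        _ ≤ (N : ℝ) ^ (1 - θ) := hkey
        _ ≤ (N : ℝ) ^ (1 : ℝ) := Real.rpow_le_rpow_of_exponent_le hN1 (by linarith)
        _ = N := Real.rpow_one _
    exact_mod_cast e1
  · have e0 : n ^ N ≤ bad S D P ((N : ℝ) ^ (1 - θ)) := by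
      refine hbad.trans (bad_mono S D P ?_)
      push_cast
      exact hkey
    have e1 : ((n ^ N : ℕ) : ℝ) ≤ (bad S D P ((N : ℝ) ^ (1 - θ)) : ℝ) := by exact_mod_cast e0
    refine le_trans ?_ e1
    push_cast
    have e2 : (N : ℝ) ^ (1 - β - δ') ≤ n := by
      refine le_trans ?_ hn1
      rw [le_div_iff₀ hMpos]
      calc (N : ℝ) ^ (1 - β - δ') * M ≤ (N : ℝ) ^ (1 - β - δ') * (M0 * (N : ℝ) ^ β) :=
            mul_le_mul_of_nonneg_left hM2 (by positivity)
        _ ≤ (N : ℝ) ^ (1 - β - δ') * ((N : ℝ) ^ δ' * (N : ℝ) ^ β) := by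
            refine mul_le_mul_of_nonneg_left ?_ (by positivity)
            exact mul_le_mul_of_nonneg_right h2 (by positivity)
        _ = N := by
            rw [← Real.rpow_add hN0, ← Real.rpow_add hN0]
            have : 1 - β - δ' + (δ' + β) = 1 := by ring
            rw [this, Real.rpow_one]
    calc (N : ℝ) ^ ((1 - θ * (1 + ε) / ε - δ) * N)
        ≤ (N : ℝ) ^ ((1 - β - δ') * N) := by
          refine Real.rpow_le_rpow_of_exponent_le hN1 ?_
          refine mul_le_mul_of_nonneg_right ?_ hN0.le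
          rw [← hθκ, hβ]
          linarith
      _ = ((N : ℝ) ^ (1 - β - δ')) ^ N := by
          rw [Real.rpow_mul hN0.le, Real.rpow_natCast]
      _ ≤ (n : ℝ) ^ N := pow_le_pow_left₀ (by positivity) e2 N

/-- beyond the threshold there is no bad choice -/
theorem law_zero {S : Finset ℚ} {ε : ℝ} (hε : 0 ≤ ε) (h : SD S ε)
    (θ : ℝ) (hθε : ε < θ * (1 + ε)) (N : ℕ) (hN : 2 ≤ N) (D P : Finset ℤ) (hD : D.card = N) :
    bad S D P ((N : ℝ) ^ (1 - θ)) = 0 := by
  classical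
  have hN0 : (0 : ℝ) < N := by exact_mod_cast (by omega : 0 < N)
  have hN1 : (1 : ℝ) < N := by exact_mod_cast (by omega : 1 < N)
  unfold bad
  rw [card_eq_zero, filter_eq_empty_iff]
  intro y _ hy
  have h1 := h (graph D y)
  have h2 : ((graph D y).image fun p : ℤ × ℤ => p.1 - p.2) = D := by
    unfold graph
    rw [image_image]
    ext d
    simp only [mem_image, mem_univ, true_and, Function.comp, add_sub_cancel_right]
    constructor
    · rintro ⟨a, rfl⟩; exact a.2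
    · intro hd; exact ⟨⟨d, hd⟩, rfl⟩
  rw [h2, hD] at h1
  have h3 : (N : ℝ) ≤ (N : ℝ) ^ ((1 - θ) * (1 + ε)) := by
    rw [Real.rpow_mul hN0.le]
    exact h1.trans (Real.rpow_le_rpow (Nat.cast_nonneg _) hy (by linarith))
  have h4 : (N : ℝ) ^ ((1 - θ) * (1 + ε)) < (N : ℝ) ^ (1 : ℝ) := by
    refine Real.rpow_lt_rpow_of_exponent_lt hN1 ?_
    nlinarith
  rw [Real.rpow_one] at h4
  linarith

/-- counting gives the inequality -/
theorem SD_of_count {S : Finset ℚ} (C θ : ℝ) (hθ : 0 < θ) (hθC : θ * C ≤ 1)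
    (h : ∃ᶠ N : ℕ in atTop, ∀ D P : Finset ℤ, D.card = N → P.card ≤ N →
      (bad S D P ((N : ℝ) ^ (1 - θ)) : ℝ) ≤ (N : ℝ) ^ ((1 - C * θ) * N))
    (ε : ℝ) (hε : 0 < ε) (hC : (1 + ε) / ε < C) : SD S ε := by
  by_contra hcon
  have h1 : θ * (1 + ε) < ε := by
    have h2 : (1 + ε) < C * ε := by rwa [div_lt_iff₀ hε] at hC
    nlinarith
  set δ := θ * (C - (1 + ε) / ε) / 2 with hδ
  have hδ0 : 0 < δ := by
    have : 0 < C - (1 + ε) / ε := by linarith
    positivity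
  have h2 := law_lower hε hcon θ hθ h1 δ hδ0
  obtain ⟨N, hN, ⟨D, P, hD, hP, hb⟩, hN2⟩ :=
    (h.and_eventually (h2.and (eventually_ge_atTop 2))).exists
  have h3 := hb.trans (hN D P hD hP)
  have hN1 : (1 : ℝ) < N := by exact_mod_cast (by omega : 1 < N)
  have hN0 : (0 : ℝ) < N := by linarith
  rw [Real.rpow_le_rpow_left_iff hN1] at h3
  have h4 := le_of_mul_le_mul_right h3 hN0
  have h5 : θ * (1 + ε) / ε = θ * ((1 + ε) / ε) := by ring
  rw [h5] at h4
  have h6 : 2 * δ = θ * (C - (1 + ε) / ε) := by rw [hδ]; ring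
  nlinarith

end Pool.Agent.Q93.MK
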