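import Pool.Agent.Q93.MK.Up

set_option autoImplicit false

open Finset Filter Topology

namespace Pool.Agent.Q93.MK

/-- a square -/
noncomputable def box (n : ℕ) : Finset (ℤ × ℤ) := Finset.Ico (0 : ℤ) (2 * n) ×ˢ Finset.Ico (0 : ℤ) (2 * n)

lemma box_big (S : Finset ℚ) : ∃ c : ℕ, 1 ≤ c ∧ ∀ n : ℕ, 1 ≤ n →
    bigF (forms S) (box n) ≤ c * n := by
  classical
  obtain ⟨K, hK1, hK⟩ : ∃ K : ℕ, 1 ≤ K ∧ ∀ r ∈ S, r.den + r.num.natAbs ≤ K := by
    refine ⟨1 + S.sup fun r => r.den + r.num.natAbs, by omega, fun r hr => ?_⟩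
    have := Finset.le_sup (f := fun r : ℚ => r.den + r.num.natAbs) hr
    have h2 : r.den + r.num.natAbs ≤ S.sup fun r => r.den + r.num.natAbs := this
    omega
  refine ⟨5 * K, by omega, fun n hn => ?_⟩
  rw [bigF_forms]
  unfold big
  refine max_le ?_ (Finset.sup_le fun r hr => ?_)
  · refine (card_le_card (t := Finset.Ico (0 : ℤ) (2 * n)) ?_).trans ?_
    · intro y hy
      obtain ⟨p, hp, rfl⟩ := mem_image.1 hy
      exact (mem_product.1 hp).2
    · rw [Int.card_Ico]
      have : ((2 * (n : ℤ)) - 0).toNat = 2 * n := by omega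
      rw [this]
      nlinarith
  · rw [← card_form]
    refine (card_le_card (t := Finset.Icc (-(2 * K * n : ℤ)) (2 * K * n)) ?_).trans ?_
    · intro y hy
      obtain ⟨p, hp, rfl⟩ := mem_image.1 hy
      obtain ⟨h2, h3⟩ := mem_product.1 hp
      rw [Finset.mem_Ico] at h2 h3
      have h4 := hK r hr
      have h5 : |r.num| = (r.num.natAbs : ℤ) := Int.abs_eq_natAbs _
      have h6 : (r.den : ℤ) + |r.num| ≤ K := by rw [h5]; exact_mod_cast h4
      have h7 : |lin ((r.den : ℤ), r.num) p| ≤ 2 * K * n := by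
        simp only [lin, smul_eq_mul]
        calc |(r.den : ℤ) * p.1 + r.num * p.2| ≤ |(r.den : ℤ) * p.1| + |r.num * p.2| :=
              abs_add_le _ _
          _ = (r.den : ℤ) * p.1 + |r.num| * p.2 := by
              rw [abs_mul, abs_mul, abs_of_nonneg h2.1, abs_of_nonneg h3.1,
                abs_of_nonneg (Int.natCast_nonneg _)]
          _ ≤ (r.den : ℤ) * (2 * n) + |r.num| * (2 * n) := by
              have a1 : (r.den : ℤ) * p.1 ≤ (r.den : ℤ) * (2 * n) :=
                mul_le_mul_of_nonneg_left h2.2.le (Int.natCast_nonneg _)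
              have a2 : |r.num| * p.2 ≤ |r.num| * (2 * n) :=
                mul_le_mul_of_nonneg_left h3.2.le (abs_nonneg _)
              linarith
          _ = ((r.den : ℤ) + |r.num|) * (2 * n) := by ring
          _ ≤ K * (2 * n) := mul_le_mul_of_nonneg_right h6 (by positivity)
          _ = 2 * K * n := by ring
      rw [Finset.mem_Icc]
      exact abs_le.1 h7
    · rw [Int.card_Icc]
      have : ((2 * K * n : ℤ) + 1 - -(2 * K * n : ℤ)).toNat = 4 * K * n + 1 := by
        have : (2 * K * n : ℤ) + 1 - -(2 * K * n : ℤ) = ((4 * K * n + 1 : ℕ) : ℤ) := by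
          push_cast; ring
        rw [this]; exact Int.toNat_natCast _
      rw [this]
      nlinarith [Nat.mul_le_mul hK1 hn]

/-- the product of a family of sets of pairs -/
def pwf {j : ℕ} (A : Fin j → Finset (ℤ × ℤ)) : Finset ((Fin j → ℤ) × (Fin j → ℤ)) :=
  (Fintype.piFinset A).image (spl j)

lemma mem_pwf {j : ℕ} {A : Fin j → Finset (ℤ × ℤ)} {p : (Fin j → ℤ) × (Fin j → ℤ)} :
    p ∈ pwf A ↔ ∀ i, (p.1 i, p.2 i) ∈ A i := by
  unfold pwf
  rw [mem_image]
  constructor
  · rintro ⟨q, hq, rfl⟩ i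
    exact Fintype.mem_piFinset.1 hq i
  · intro h
    exact ⟨fun i => (p.1 i, p.2 i), Fintype.mem_piFinset.2 h, rfl⟩

lemma bigF_pwf (F : Finset (ℤ × ℤ)) {j : ℕ} (A : Fin j → Finset (ℤ × ℤ)) :
    bigF F (pwf A) ≤ ∏ i, bigF F (A i) := by
  unfold bigF
  refine Finset.sup_le fun f hf => ?_
  have h1 : (pwf A).image (lin f) ⊆ Fintype.piFinset fun i : Fin j => (A i).image (lin f) := by
    intro w hw
    obtain ⟨p, hp, rfl⟩ := mem_image.1 hw
    exact Fintype.mem_piFinset.2 fun i => mem_image.2 ⟨(p.1 i, p.2 i), mem_pwf.1 hp i, rfl⟩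
  refine (card_le_card h1).trans ?_
  rw [Fintype.card_piFinset]
  exact prod_le_prod' fun i _ => le_bigF hf

lemma bigF_image (F : Finset (ℤ × ℤ)) {j : ℕ} (ψ : (Fin j → ℤ) →+ ℤ)
    (A : Finset ((Fin j → ℤ) × (Fin j → ℤ))) :
    bigF F (A.image fun q => (ψ q.1, ψ q.2)) ≤ bigF F A := by
  unfold bigF
  refine Finset.sup_mono_fun fun f _ => ?_
  have : (A.image fun q => (ψ q.1, ψ q.2)).image (lin f) = (A.image (lin f)).image ψ := by
    rw [image_image, image_image]
    refine image_congr fun q _ => ?_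
    exact (lin_hom ψ f q).symm
  rw [this]
  exact card_image_le

/-- **many bad choices** -/
theorem low_finite (S : Finset ℚ) (A0 : Finset (ℤ × ℤ)) (c : ℕ)
    (hc : ∀ n : ℕ, 1 ≤ n → bigF (forms S) (box n) ≤ c * n) (j n N : ℕ) (hn : 1 ≤ n)
    (hN : N ≤ n * (dif A0).card ^ j) :
    ∃ D P : Finset ℤ, D.card = N ∧ P.card ≤ n * bigF (forms S) A0 ^ j ∧
      n ^ N ≤ bad S D P ((c * n * bigF (forms S) A0 ^ j : ℕ) : ℝ) := by
  classical
  set F := forms S with hF
  set T := bigF F A0 with hT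
  have hch : ∀ d : ℤ, ∃ t : ℤ, d ∈ dif A0 → (d + t, t) ∈ A0 := by
    intro d
    by_cases hd : d ∈ dif A0
    · obtain ⟨p, hp, hpd⟩ := mem_image.1 hd
      refine ⟨p.2, fun _ => ?_⟩
      have : d + p.2 = p.1 := by rw [← hpd]; ring
      rw [this]; exact hp
    · exact ⟨0, fun h => absurd h hd⟩
  choose y0 hy0 using hch
  set Y0 : Finset ℤ := (dif A0).image y0 with hY0
  have hY0c : Y0.card ≤ T := by
    have h01 : ((0, 1) : ℤ × ℤ) ∈ F := mem_insert_self _ _
    refine le_trans (card_le_card ?_) (le_bigF h01)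
    intro t ht
    obtain ⟨d, hd, rfl⟩ := mem_image.1 ht
    exact mem_image.2 ⟨(d + y0 d, y0 d), hy0 d hd, by simp [lin]⟩
  let I : Finset ℤ := Finset.Ico (0 : ℤ) n
  have hI : I.card = n := by simp [I]
  let fD : Fin (j + 1) → Finset ℤ := Fin.cons I (fun _ : Fin j => dif A0)
  let fP : Fin (j + 1) → Finset ℤ := Fin.cons I (fun _ : Fin j => Y0)
  set DV : Finset (Fin (j + 1) → ℤ) := Fintype.piFinset fD with hDV
  set PV : Finset (Fin (j + 1) → ℤ) := Fintype.piFinset fP with hPV
  have hDVc : DV.card = n * (dif A0).card ^ j := by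
    rw [hDV, Fintype.card_piFinset, Fin.prod_univ_succ]
    simp [fD, hI]
  have hPVc : PV.card ≤ n * T ^ j := by
    rw [hPV, Fintype.card_piFinset, Fin.prod_univ_succ]
    simp only [fP, Fin.cons_zero, Fin.cons_succ, prod_const, card_univ, Fintype.card_fin, hI]
    exact Nat.mul_le_mul_left _ (Nat.pow_le_pow_left hY0c j)
  obtain ⟨ψ, hψ⟩ := exists_inj (j + 1) (DV ∪ PV)
  have hψD : Set.InjOn ψ (DV : Set (Fin (j + 1) → ℤ)) := hψ.mono (by
    intro x hx; exact mem_coe.2 (mem_union_left _ (mem_coe.1 hx)))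
  have hψP : Set.InjOn ψ (PV : Set (Fin (j + 1) → ℤ)) := hψ.mono (by
    intro x hx; exact mem_coe.2 (mem_union_right _ (mem_coe.1 hx)))
  obtain ⟨DV', hDV', hDVc'⟩ := exists_subset_card_eq (hN.trans hDVc.ge)
  set D : Finset ℤ := DV'.image ψ with hD
  set P : Finset ℤ := PV.image ψ with hP
  have hDc : D.card = N := by
    rw [hD, card_image_of_injOn (hψD.mono (by exact_mod_cast hDV')), hDVc']
  refine ⟨D, P, hDc, card_image_le.trans hPVc, ?_⟩
  have hex : ∀ d : D, ∃ v ∈ DV', ψ v = (d : ℤ) := fun d => mem_image.1 d.2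
  choose v hv hvd using hex
  let pos : (D → Fin n) → D → (Fin (j + 1) → ℤ) := fun τ d =>
    Fin.cons ((τ d : ℕ) : ℤ) (fun l : Fin j => y0 (v d l.succ))
  have hvD : ∀ d : D, v d ∈ DV := fun d => hDV' (hv d)
  have hv0 : ∀ d : D, v d 0 ∈ I := fun d => by
    have := Fintype.mem_piFinset.1 (hvD d) 0
    simpa [fD] using this
  have hvs : ∀ (d : D) (l : Fin j), v d l.succ ∈ dif A0 := fun d l => by
    have := Fintype.mem_piFinset.1 (hvD d) l.succ
    simpa [fD] using this
  have hτI : ∀ (τ : D → Fin n) (d : D), ((τ d : ℕ) : ℤ) ∈ I := fun τ d => by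
    show ((τ d : ℕ) : ℤ) ∈ Finset.Ico (0 : ℤ) n
    rw [Finset.mem_Ico]
    exact ⟨Int.natCast_nonneg _, by exact_mod_cast (τ d).2⟩
  have hposP : ∀ τ d, pos τ d ∈ PV := by
    intro τ d
    refine Fintype.mem_piFinset.2 fun i => ?_
    refine Fin.cases ?_ (fun l => ?_) i
    · simpa [pos, fP] using hτI τ d
    · simp only [pos, fP, Fin.cons_succ]
      exact mem_image_of_mem _ (hvs d l)
  have hcardfun : (univ : Finset (D → Fin n)).card = n ^ N := by
    rw [card_univ, Fintype.card_fun, Fintype.card_fin, Fintype.card_coe, hDc]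
  rw [← hcardfun]
  unfold bad
  refine card_le_card_of_injOn (fun τ => fun d => ψ (pos τ d)) ?_ ?_
  · intro τ _
    refine mem_coe.2 (mem_filter.2 ⟨Fintype.mem_piFinset.2 fun d =>
      mem_image_of_mem _ (hposP τ d), ?_⟩)
    rw [← bigF_forms]
    have hG : graph D (fun d => ψ (pos τ d)) =
        ((univ : Finset D).image fun d => (v d + pos τ d, pos τ d)).image
          fun q => (ψ q.1, ψ q.2) := by
      unfold graph
      rw [image_image]
      refine image_congr fun d _ => ?_
      simp only [Function.comp, map_add, hvd]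
    have h1 : bigF F (graph D (fun d => ψ (pos τ d))) ≤ c * n * T ^ j := by
      rw [hG]
      refine (bigF_image F ψ _).trans ?_
      have h2 : ((univ : Finset D).image fun d => (v d + pos τ d, pos τ d)) ⊆
          pwf (Fin.cons (box n) (fun _ : Fin j => A0) : Fin (j + 1) → Finset (ℤ × ℤ)) := by
        intro q hq
        obtain ⟨d, _, rfl⟩ := mem_image.1 hq
        rw [mem_pwf]
        intro i
        refine Fin.cases ?_ (fun l => ?_) i
        · simp only [pos, Pi.add_apply, Fin.cons_zero]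
          have a1 := hv0 d
          have a2 := hτI τ d
          simp only [I, Finset.mem_Ico] at a1 a2
          simp only [box, mem_product, Finset.mem_Ico]
          omega
        · simp only [pos, Pi.add_apply, Fin.cons_succ]
          exact hy0 _ (hvs d l)
      refine (bigF_mono h2).trans ((bigF_pwf F _).trans ?_)
      rw [Fin.prod_univ_succ]
      simp only [Fin.cons_zero, Fin.cons_succ, prod_const, card_univ, Fintype.card_fin]
      exact Nat.mul_le_mul_right _ (hc n hn)
    exact_mod_cast h1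
  · intro τ _ τ' _ hττ
    funext d
    have h1 : ψ (pos τ d) = ψ (pos τ' d) := congrFun hττ d
    have h2 := hψP (mem_coe.2 (hposP τ d)) (mem_coe.2 (hposP τ' d)) h1
    have h3 := congrFun h2 0
    simp only [pos, Fin.cons_zero] at h3
    exact Fin.ext (by exact_mod_cast h3)

end Pool.Agent.Q93.MK
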