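import Pool.Agent.Q93.MK.Ten

set_option autoImplicit false

open Finset Filter Topology

namespace Pool.Agent.Q93.MK

/-- the largest size of a projection of `A` with slope `∞` or in `S` -/
def big (S : Finset ℚ) (A : Finset (ℤ × ℤ)) : ℕ :=
  max (A.image fun p : ℤ × ℤ => p.2).card
    (S.sup fun r => (A.image fun p : ℤ × ℤ => (p.1 : ℚ) + r * (p.2 : ℚ)).card)

/-- the integral forms belonging to a set of slopes -/
def forms (S : Finset ℚ) : Finset (ℤ × ℤ) :=
  insert (0, 1) (S.image fun r => ((r.den : ℤ), r.num))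

lemma forms_nonempty (S : Finset ℚ) : (forms S).Nonempty := insert_nonempty _ _

lemma forms_sum (S : Finset ℚ) (hS : (-1 : ℚ) ∉ S) : ∀ f ∈ forms S, f.1 + f.2 ≠ 0 := by
  intro f hf
  rcases mem_insert.1 hf with rfl | hf
  · norm_num
  · obtain ⟨r, hr, rfl⟩ := mem_image.1 hf
    intro h
    apply hS
    have hd : (r.den : ℚ) ≠ 0 := by exact_mod_cast r.den_nz
    have h1 : r.num = -(r.den : ℤ) := by
      have : (r.den : ℤ) + r.num = 0 := h
      linarith
    have h2 : r = -1 := by
      rw [← Rat.num_div_den r, h1]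
      push_cast
      field_simp
    rw [← h2]; exact hr

lemma card_form (r : ℚ) (A : Finset (ℤ × ℤ)) :
    (A.image (lin ((r.den : ℤ), r.num))).card =
      (A.image fun p : ℤ × ℤ => (p.1 : ℚ) + r * (p.2 : ℚ)).card := by
  have hd : (r.den : ℚ) ≠ 0 := by exact_mod_cast r.den_nz
  have h1 : (A.image (lin ((r.den : ℤ), r.num))).image (fun z : ℤ => (z : ℚ)) =
      (A.image fun p : ℤ × ℤ => (p.1 : ℚ) + r * (p.2 : ℚ)).image (fun x => (r.den : ℚ) * x) := by
    rw [image_image, image_image]
    refine image_congr fun p _ => ?_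
    have h2 : (r.den : ℚ) * r = r.num := Rat.den_mul_eq_num r
    simp only [Function.comp, lin, smul_eq_mul]
    push_cast
    linear_combination (-(p.2 : ℚ)) * h2
  rw [← card_image_of_injective _ (Int.cast_injective (α := ℚ)), h1,
    card_image_of_injective _ (mul_right_injective₀ hd)]

lemma bigF_forms (S : Finset ℚ) (A : Finset (ℤ × ℤ)) : bigF (forms S) A = big S A := by
  unfold bigF forms big
  rw [sup_insert, sup_image]
  have h0 : (A.image (lin (0, 1))).card = (A.image fun p : ℤ × ℤ => p.2).card := by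
    congr 1
    refine image_congr fun p _ => ?_
    simp [lin]
  have h1 : (S.sup ((fun f => (A.image (lin f)).card) ∘ fun r => ((r.den : ℤ), r.num))) =
      S.sup fun r => (A.image fun p : ℤ × ℤ => (p.1 : ℚ) + r * (p.2 : ℚ)).card := by
    refine Finset.sup_congr rfl fun r _ => ?_
    exact card_form r A
  rw [h0, h1]

/-- the sums-differences inequality with exponent `1 + ε` for the slopes in `S` and `∞` -/
def SD (S : Finset ℚ) (ε : ℝ) : Prop :=
  ∀ A : Finset (ℤ × ℤ), ((A.image fun p : ℤ × ℤ => p.1 - p.2).card : ℝ) ≤ (big S A : ℝ) ^ (1 + ε)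

lemma SD_iff (S : Finset ℚ) (ε : ℝ) : SD S ε ↔ SDF (forms S) ε := by
  unfold SD SDF
  refine forall_congr' fun A => ?_
  rw [bigF_forms]
  rfl

/-- the number of pairs of `A` with difference `d` -/
def r (A : Finset (ℤ × ℤ)) (d : ℤ) : ℕ := (A.filter fun p : ℤ × ℤ => p.1 - p.2 = d).card

/-- **the moment inequality for slopes** -/
theorem moment_iff (S : Finset ℚ) (hS : (-1 : ℚ) ∉ S) (ε : ℝ) (hε : 0 ≤ ε) :
    SD S ε ↔ ∀ A : Finset (ℤ × ℤ),
      ∑ d ∈ A.image (fun p : ℤ × ℤ => p.1 - p.2), (r A d : ℝ) ^ ε ≤ (big S A : ℝ) ^ (1 + ε) := by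
  rw [SD_iff]
  constructor
  · intro h A
    have := moment (forms_nonempty S) (forms_sum S hS) hε h A
    rw [bigF_forms] at this
    exact this
  · intro h
    refine SDF_of_moment hε fun A => ?_
    rw [bigF_forms]
    exact h A

/-- the exponent of the multiplicities cannot be raised -/
theorem exponent_sharp (S : Finset ℚ) (ε t : ℝ) (hε : 0 ≤ ε) (ht : ε < t) :
    ∃ A : Finset (ℤ × ℤ), (big S A : ℝ) ^ (1 + ε) <
      ∑ d ∈ A.image (fun p : ℤ × ℤ => p.1 - p.2), (r A d : ℝ) ^ t := by
  classical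
  -- a constant for the projections
  obtain ⟨K, hK1, hK⟩ : ∃ K : ℕ, 1 ≤ K ∧ ∀ r ∈ S, r.den + r.num.natAbs ≤ K := by
    refine ⟨1 + S.sup fun r => r.den + r.num.natAbs, by omega, fun r hr => ?_⟩
    have := Finset.le_sup (f := fun r : ℚ => r.den + r.num.natAbs) hr
    have h2 : r.den + r.num.natAbs ≤ S.sup fun r => r.den + r.num.natAbs := this
    omega
  let A : ℕ → Finset (ℤ × ℤ) := fun n => (Finset.Ico (0 : ℤ) (2 * n)) ×ˢ (Finset.Ico (0 : ℤ) (2 * n))
  have hbig : ∀ n : ℕ, 1 ≤ n → (big S (A n) : ℝ) ≤ (5 * K : ℝ) * n := by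
    intro n hn
    have h1 : big S (A n) ≤ 5 * K * n := by
      unfold big
      refine max_le ?_ (Finset.sup_le fun r hr => ?_)
      · refine (card_le_card (t := Finset.Ico (0 : ℤ) (2 * n)) ?_).trans ?_
        · intro y hy
          obtain ⟨p, hp, rfl⟩ := mem_image.1 hy
          exact (mem_product.1 hp).2
        · rw [Int.card_Ico]
          have : ((2 * (n : ℤ)) - 0).toNat = 2 * n := by omega
          rw [this]
          nlinarith
      · rw [← card_form]
        refine (card_le_card (t := Finset.Icc (-(2 * K * n : ℤ)) (2 * K * n)) ?_).trans ?_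
        · intro y hy
          obtain ⟨p, hp, rfl⟩ := mem_image.1 hy
          obtain ⟨h2, h3⟩ := mem_product.1 hp
          rw [Finset.mem_Ico] at h2 h3
          have h4 := hK r hr
          have h5 : |r.num| = (r.num.natAbs : ℤ) := Int.abs_eq_natAbs _
          have h6 : (r.den : ℤ) + |r.num| ≤ K := by rw [h5]; exact_mod_cast h4
          have h7 : |lin ((r.den : ℤ), r.num) p| ≤ 2 * K * n := by
            simp only [lin, smul_eq_mul]
            calc |(r.den : ℤ) * p.1 + r.num * p.2| ≤ |(r.den : ℤ) * p.1| + |r.num * p.2| :=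
                  abs_add_le _ _
              _ = (r.den : ℤ) * p.1 + |r.num| * p.2 := by
                  rw [abs_mul, abs_mul, abs_of_nonneg h2.1, abs_of_nonneg h3.1,
                    abs_of_nonneg (Int.natCast_nonneg _)]
              _ ≤ (r.den : ℤ) * (2 * n) + |r.num| * (2 * n) := by
                  have a1 : (r.den : ℤ) * p.1 ≤ (r.den : ℤ) * (2 * n) :=
                    mul_le_mul_of_nonneg_left h2.2.le (Int.natCast_nonneg _)
                  have a2 : |r.num| * p.2 ≤ |r.num| * (2 * n) :=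
                    mul_le_mul_of_nonneg_left h3.2.le (abs_nonneg _)
                  linarith
              _ = ((r.den : ℤ) + |r.num|) * (2 * n) := by ring
              _ ≤ K * (2 * n) := mul_le_mul_of_nonneg_right h6 (by positivity)
              _ = 2 * K * n := by ring
          rw [Finset.mem_Icc]
          exact abs_le.1 h7
        · rw [Int.card_Icc]
          have : ((2 * K * n : ℤ) + 1 - -(2 * K * n : ℤ)).toNat = 4 * K * n + 1 := by
            have : (2 * K * n : ℤ) + 1 - -(2 * K * n : ℤ) = ((4 * K * n + 1 : ℕ) : ℤ) := by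
              push_cast; ring
            rw [this]; exact Int.toNat_natCast _
          rw [this]
          nlinarith [Nat.mul_le_mul hK1 hn]
    calc (big S (A n) : ℝ) ≤ ((5 * K * n : ℕ) : ℝ) := by exact_mod_cast h1
      _ = (5 * K : ℝ) * n := by push_cast; ring
  have hmom : ∀ n : ℕ, 1 ≤ n → (n : ℝ) * (n : ℝ) ^ t ≤
      ∑ d ∈ (A n).image (fun p : ℤ × ℤ => p.1 - p.2), (r (A n) d : ℝ) ^ t := by
    intro n hn
    have hsub : Finset.Ico (0 : ℤ) n ⊆ (A n).image (fun p : ℤ × ℤ => p.1 - p.2) := by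
      intro d hd
      rw [Finset.mem_Ico] at hd
      refine mem_image.2 ⟨(d, 0), mem_product.2 ⟨?_, ?_⟩, by simp⟩
      · rw [Finset.mem_Ico]; constructor <;> simp only <;> omega
      · rw [Finset.mem_Ico]; constructor <;> simp only <;> omega
    have hr : ∀ d ∈ Finset.Ico (0 : ℤ) n, n ≤ r (A n) d := by
      intro d hd
      rw [Finset.mem_Ico] at hd
      unfold r
      have hcard : n = ((Finset.Ico (0 : ℤ) n).image fun y : ℤ => (y + d, y)).card := by
        rw [card_image_of_injective _ (fun a b h => (Prod.mk.inj h).2), Int.card_Ico]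
        simp
      conv_lhs => rw [hcard]
      refine card_le_card ?_
      intro q hq
      obtain ⟨y, hy, rfl⟩ := mem_image.1 hq
      rw [Finset.mem_Ico] at hy
      refine mem_filter.2 ⟨mem_product.2 ⟨?_, ?_⟩, by simp⟩
      · rw [Finset.mem_Ico]; constructor <;> simp only <;> omega
      · rw [Finset.mem_Ico]; constructor <;> simp only <;> omega
    calc (n : ℝ) * (n : ℝ) ^ t = ∑ _d ∈ Finset.Ico (0 : ℤ) n, (n : ℝ) ^ t := by
          rw [sum_const, nsmul_eq_mul, Int.card_Ico]; simp
      _ ≤ ∑ d ∈ Finset.Ico (0 : ℤ) n, (r (A n) d : ℝ) ^ t :=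
          sum_le_sum fun d hd => Real.rpow_le_rpow (Nat.cast_nonneg _)
            (by exact_mod_cast hr d hd) (by linarith)
      _ ≤ _ := sum_le_sum_of_subset_of_nonneg hsub fun d _ _ => by positivity
  -- choose n
  have hgrow : Tendsto (fun n : ℕ => (n : ℝ) ^ (t - ε)) atTop atTop :=
    (tendsto_rpow_atTop (by linarith)).comp tendsto_natCast_atTop_atTop
  obtain ⟨n, hn1, hn2⟩ := ((hgrow.eventually_gt_atTop ((5 * K : ℝ) ^ (1 + ε))).and
    (eventually_ge_atTop 1)).exists
  have hnr : (0 : ℝ) < n := by exact_mod_cast hn2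
  refine ⟨A n, lt_of_lt_of_le ?_ (hmom n hn2)⟩
  calc (big S (A n) : ℝ) ^ (1 + ε) ≤ ((5 * K : ℝ) * n) ^ (1 + ε) :=
        Real.rpow_le_rpow (Nat.cast_nonneg _) (hbig n hn2) (by linarith)
    _ = (5 * K : ℝ) ^ (1 + ε) * (n : ℝ) ^ (1 + ε) := Real.mul_rpow (by positivity) hnr.le
    _ < (n : ℝ) ^ (t - ε) * (n : ℝ) ^ (1 + ε) :=
        mul_lt_mul_of_pos_right hn1 (Real.rpow_pos_of_pos hnr _)
    _ = (n : ℝ) * (n : ℝ) ^ t := by
        rw [← Real.rpow_add hnr]
        have : t - ε + (1 + ε) = 1 + t := by ring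
        rw [this, Real.rpow_add hnr, Real.rpow_one]

end Pool.Agent.Q93.MK
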