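import Pool.Agent.Q93.MK.Vec

set_option autoImplicit false

open Finset Filter Topology

namespace Pool.Agent.Q93.MK

/-- splitting a sequence of pairs -/
def spl (j : ℕ) (q : Fin j → ℤ × ℤ) : (Fin j → ℤ) × (Fin j → ℤ) :=
  (fun i => (q i).1, fun i => (q i).2)

lemma spl_inj (j : ℕ) : Function.Injective (spl j) := by
  intro q q' h
  funext i
  have h1 := congrFun (congrArg Prod.fst h) i
  have h2 := congrFun (congrArg Prod.snd h) i
  exact Prod.ext h1 h2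

/-- the power of a set of pairs -/
def pw (j : ℕ) (A : Finset (ℤ × ℤ)) : Finset ((Fin j → ℤ) × (Fin j → ℤ)) :=
  (Fintype.piFinset fun _ : Fin j => A).image (spl j)

lemma mem_pw {j : ℕ} {A : Finset (ℤ × ℤ)} {p : (Fin j → ℤ) × (Fin j → ℤ)} :
    p ∈ pw j A ↔ ∀ i, (p.1 i, p.2 i) ∈ A := by
  unfold pw
  rw [mem_image]
  constructor
  · rintro ⟨q, hq, rfl⟩ i
    exact Fintype.mem_piFinset.1 hq i
  · intro h
    exact ⟨fun i => (p.1 i, p.2 i), Fintype.mem_piFinset.2 h, rfl⟩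

lemma lin_pw {j : ℕ} {A : Finset (ℤ × ℤ)} {f : ℤ × ℤ} {w : Fin j → ℤ}
    (hw : w ∈ (pw j A).image (lin f)) (i : Fin j) : w i ∈ A.image (lin f) := by
  obtain ⟨p, hp, rfl⟩ := mem_image.1 hw
  exact mem_image.2 ⟨(p.1 i, p.2 i), mem_pw.1 hp i, rfl⟩

lemma bigF_pw (F : Finset (ℤ × ℤ)) (j : ℕ) (A : Finset (ℤ × ℤ)) :
    bigF F (pw j A) ≤ bigF F A ^ j := by
  unfold bigF
  refine Finset.sup_le fun f hf => ?_
  have h1 : (pw j A).image (lin f) ⊆ Fintype.piFinset fun _ : Fin j => A.image (lin f) := by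
    intro w hw
    exact Fintype.mem_piFinset.2 fun i => lin_pw hw i
  refine (card_le_card h1).trans ?_
  rw [Fintype.card_piFinset, prod_const, card_univ, Fintype.card_fin]
  exact Nat.pow_le_pow_left (le_bigF hf) j

lemma dif_pw (j : ℕ) (A : Finset (ℤ × ℤ)) :
    dif (pw j A) = Fintype.piFinset fun _ : Fin j => dif A := by
  ext d
  rw [Fintype.mem_piFinset]
  constructor
  · intro hd i
    obtain ⟨p, hp, rfl⟩ := mem_image.1 hd
    exact mem_image.2 ⟨(p.1 i, p.2 i), mem_pw.1 hp i, rfl⟩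
  · intro hd
    choose q hq hqd using fun i => mem_image.1 (hd i)
    refine mem_image.2 ⟨spl j q, mem_pw.2 fun i => hq i, ?_⟩
    funext i
    exact hqd i

lemma rep_pw (j : ℕ) (A : Finset (ℤ × ℤ)) (d : Fin j → ℤ) :
    rep (pw j A) d = ∏ i, rep A (d i) := by
  unfold rep
  rw [← Fintype.card_piFinset, ← card_image_of_injective _ (spl_inj j)]
  congr 1
  ext p
  rw [mem_filter, mem_image]
  constructor
  · rintro ⟨hp, hd⟩
    refine ⟨fun i => (p.1 i, p.2 i), Fintype.mem_piFinset.2 fun i => ?_, rfl⟩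
    exact mem_filter.2 ⟨mem_pw.1 hp i, congrFun hd i⟩
  · rintro ⟨q, hq, rfl⟩
    refine ⟨mem_pw.2 fun i => (mem_filter.1 (Fintype.mem_piFinset.1 hq i)).1, ?_⟩
    funext i
    exact (mem_filter.1 (Fintype.mem_piFinset.1 hq i)).2

/-- the moment of the representation function -/
noncomputable def mom {V : Type*} [AddCommGroup V] [DecidableEq V] (A : Finset (V × V))
    (ε : ℝ) : ℝ := ∑ d ∈ dif A, (rep A d : ℝ) ^ ε

lemma mom_pw (j : ℕ) (A : Finset (ℤ × ℤ)) (ε : ℝ) : mom (pw j A) ε = mom A ε ^ j := by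
  unfold mom
  rw [dif_pw]
  have h := Finset.prod_univ_sum (fun _ : Fin j => dif A) (fun (_ : Fin j) d => (rep A d : ℝ) ^ ε)
  rw [prod_const, card_univ, Fintype.card_fin] at h
  rw [h]
  refine sum_congr rfl fun d _ => ?_
  rw [rep_pw, Nat.cast_prod, Real.finsetProd_rpow _ _ fun i _ => Nat.cast_nonneg _]

lemma dyadic {V : Type*} [AddCommGroup V] [DecidableEq V] (A : Finset (V × V)) (ε : ℝ)
    (hε : 0 ≤ ε) (L : ℕ) (hL : A.card < 2 ^ (L + 1)) (X : ℝ)
    (h : ∀ i, ((dif (A.filter fun q => 2 ^ i ≤ rep A (q.1 - q.2))).card : ℝ) *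
      ((2 ^ i : ℕ) : ℝ) ^ ε ≤ X) :
    mom A ε ≤ (L + 1) * (2 ^ ε * X) := by
  unfold mom
  have h1 : ∀ d ∈ dif A, (rep A d : ℝ) ^ ε ≤
      ∑ i ∈ range (L + 1), if 2 ^ i ≤ rep A d then ((2 ^ (i + 1) : ℕ) : ℝ) ^ ε else 0 := by
    intro d hd
    have hpos : 0 < rep A d := by
      obtain ⟨p, hp, hpd⟩ := mem_image.1 hd
      exact card_pos.2 ⟨p, mem_filter.2 ⟨hp, hpd⟩⟩
    have hle : rep A d ≤ A.card := card_le_card (filter_subset _ _)
    set i := Nat.log 2 (rep A d) with hi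
    have h2 : 2 ^ i ≤ rep A d := Nat.pow_log_le_self 2 hpos.ne'
    have h3 : rep A d < 2 ^ (i + 1) := Nat.lt_pow_succ_log_self (by norm_num) _
    have h4 : i < L + 1 := by
      have : 2 ^ i < 2 ^ (L + 1) := lt_of_le_of_lt (h2.trans hle) hL
      exact (Nat.pow_lt_pow_iff_right (by norm_num)).1 this
    calc (rep A d : ℝ) ^ ε ≤ ((2 ^ (i + 1) : ℕ) : ℝ) ^ ε :=
          Real.rpow_le_rpow (Nat.cast_nonneg _) (Nat.cast_le.2 h3.le) hε
      _ = if 2 ^ i ≤ rep A d then ((2 ^ (i + 1) : ℕ) : ℝ) ^ ε else 0 := by rw [if_pos h2]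
      _ ≤ _ := single_le_sum (f := fun i => if 2 ^ i ≤ rep A d then
            ((2 ^ (i + 1) : ℕ) : ℝ) ^ ε else 0)
          (fun i _ => by split_ifs <;> positivity) (mem_range.2 h4)
  refine (sum_le_sum h1).trans ?_
  rw [sum_comm]
  have h5 : ∀ i ∈ range (L + 1), (∑ d ∈ dif A, if 2 ^ i ≤ rep A d then
      ((2 ^ (i + 1) : ℕ) : ℝ) ^ ε else 0) ≤ 2 ^ ε * X := by
    intro i _
    rw [← sum_filter, sum_const, nsmul_eq_mul]
    have e1 : (dif A).filter (fun d => 2 ^ i ≤ rep A d) =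
        dif (A.filter fun q => 2 ^ i ≤ rep A (q.1 - q.2)) := by
      ext d
      simp only [dif, mem_filter, mem_image]
      constructor
      · rintro ⟨⟨p, hp, rfl⟩, h⟩
        exact ⟨p, ⟨hp, h⟩, rfl⟩
      · rintro ⟨p, ⟨hp, h⟩, rfl⟩
        exact ⟨⟨p, hp, rfl⟩, h⟩
    rw [e1]
    have e2 : ((2 ^ (i + 1) : ℕ) : ℝ) ^ ε = 2 ^ ε * ((2 ^ i : ℕ) : ℝ) ^ ε := by
      rw [pow_succ, Nat.cast_mul, Real.mul_rpow (Nat.cast_nonneg _) (Nat.cast_nonneg _), mul_comm]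
      norm_num
    rw [e2]
    calc ((dif (A.filter fun q => 2 ^ i ≤ rep A (q.1 - q.2))).card : ℝ) *
          (2 ^ ε * ((2 ^ i : ℕ) : ℝ) ^ ε)
        = 2 ^ ε * (((dif (A.filter fun q => 2 ^ i ≤ rep A (q.1 - q.2))).card : ℝ) *
          ((2 ^ i : ℕ) : ℝ) ^ ε) := by ring
      _ ≤ 2 ^ ε * X := mul_le_mul_of_nonneg_left (h i) (by positivity)
  refine (sum_le_sum h5).trans ?_
  rw [sum_const, card_range, nsmul_eq_mul]
  push_cast
  exact le_rfl

lemma limit_lemma (M Y a b : ℝ) (hY : 0 < Y)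
    (h : ∀ j : ℕ, M ^ j ≤ (a * j + b) * Y ^ j) : M ≤ Y := by
  by_contra hcon
  push Not at hcon
  have hr : 1 < M / Y := (one_lt_div hY).2 hcon
  have t1 := tendsto_pow_const_div_const_pow_of_one_lt 1 hr
  have t0 := tendsto_pow_const_div_const_pow_of_one_lt 0 hr
  have t : Tendsto (fun n : ℕ => a * ((n : ℝ) ^ 1 / (M / Y) ^ n) + b * ((n : ℝ) ^ 0 / (M / Y) ^ n))
      atTop (𝓝 (a * 0 + b * 0)) := (t1.const_mul a).add (t0.const_mul b)
  rw [mul_zero, mul_zero, add_zero] at t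
  obtain ⟨n, hn⟩ := (t.eventually (gt_mem_nhds (show (0 : ℝ) < 1 by norm_num))).exists
  have h1 := h n
  have hYn : 0 < Y ^ n := pow_pos hY n
  have hrn : 0 < (M / Y) ^ n := pow_pos (by linarith) n
  have h2 : (M / Y) ^ n ≤ a * n + b := by
    rw [div_pow, div_le_iff₀ hYn]; exact h1
  have h3 : a * ((n : ℝ) ^ 1 / (M / Y) ^ n) + b * ((n : ℝ) ^ 0 / (M / Y) ^ n) =
      (a * n + b) / (M / Y) ^ n := by
    rw [pow_one, pow_zero]; ring
  rw [h3, div_lt_one hrn] at hn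
  linarith

lemma exists_prime_good (F : Finset (ℤ × ℤ)) (A : Finset (ℤ × ℤ)) : ∃ p : ℕ, p.Prime ∧ 4 ≤ p ∧
    (∀ f ∈ F, ∀ w ∈ A.image (lin f), ∀ w' ∈ A.image (lin f), w ≠ w' →
      ((w - w' : ℤ) : ZMod p) ≠ 0) ∧
    (∀ a ∈ A, ∀ b ∈ A, a.1 ≠ b.1 → ((a.1 - b.1 : ℤ) : ZMod p) ≠ 0) := by
  classical
  set R1 : Finset ℤ := F.biUnion fun f => (A.image (lin f) ×ˢ A.image (lin f)).image
    fun q => q.1 - q.2 with hR1
  set R2 : Finset ℤ := (A ×ˢ A).image fun q => q.1.1 - q.2.1 with hR2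
  set m := (R1 ∪ R2).sup Int.natAbs with hm
  obtain ⟨p, hp, hpp⟩ := Nat.exists_infinite_primes (m + 4)
  have key : ∀ z ∈ R1 ∪ R2, z ≠ 0 → ((z : ℤ) : ZMod p) ≠ 0 := by
    intro z hz hz0 h
    rw [ZMod.intCast_zmod_eq_zero_iff_dvd] at h
    apply hz0
    refine Int.eq_zero_of_abs_lt_dvd h ?_
    have : z.natAbs ≤ m := Finset.le_sup (f := Int.natAbs) hz
    rw [Int.abs_eq_natAbs]
    exact_mod_cast (by omega : z.natAbs < p)
  refine ⟨p, hpp, by omega, ?_, ?_⟩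
  · intro f hf w hw w' hw' hne
    refine key _ (mem_union_left _ (mem_biUnion.2 ⟨f, hf, mem_image.2 ⟨(w, w'),
      mem_product.2 ⟨hw, hw'⟩, rfl⟩⟩)) (sub_ne_zero.2 hne)
  · intro a ha b hb hne
    refine key _ (mem_union_right _ (mem_image.2 ⟨(a, b), mem_product.2 ⟨ha, hb⟩, rfl⟩))
      (sub_ne_zero.2 hne)

/-- **the moment inequality** -/
theorem moment {F : Finset (ℤ × ℤ)} (hF : F.Nonempty) (hsum : ∀ f ∈ F, f.1 + f.2 ≠ 0) {ε : ℝ}
    (hε : 0 ≤ ε) (h : SDF F ε) (A : Finset (ℤ × ℤ)) :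
    mom A ε ≤ (bigF F A : ℝ) ^ (1 + ε) := by
  classical
  rcases A.eq_empty_or_nonempty with rfl | hA
  · simp only [mom, dif, image_empty, sum_empty]
    positivity
  obtain ⟨p, hpp, hp4, hp1, hp2⟩ := exists_prime_good F A
  have : Fact p.Prime := ⟨hpp⟩
  set Cst : ℝ := 2 * p * (p + 4 * F.card : ℝ) ^ (1 + ε) with hC
  have hC0 : 0 ≤ Cst := by positivity
  have hT1 : 1 ≤ bigF F A := by
    obtain ⟨f, hf⟩ := hF
    exact (card_pos.2 (hA.image (lin f))).trans_le (le_bigF hf)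
  have hTr : (0 : ℝ) < bigF F A := by exact_mod_cast hT1
  set Y := (bigF F A : ℝ) ^ (1 + ε) with hY
  have hY0 : 0 < Y := Real.rpow_pos_of_pos hTr _
  refine limit_lemma _ _ (A.card * (2 ^ ε * Cst)) (1 * (2 ^ ε * Cst)) hY0 fun j => ?_
  rw [← mom_pw]
  set B := pw j A with hB
  have hbound : ∀ i, ((dif (B.filter fun q => 2 ^ i ≤ rep B (q.1 - q.2))).card : ℝ) *
      ((2 ^ i : ℕ) : ℝ) ^ ε ≤ Cst * Y ^ j := by
    intro i
    set Bi := B.filter fun q => 2 ^ i ≤ rep B (q.1 - q.2) with hBi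
    have hsub : Bi ⊆ B := filter_subset _ _
    rcases Bi.eq_empty_or_nonempty with he | hne
    · rw [he]
      simp only [dif, image_empty, card_empty, Nat.cast_zero, zero_mul]
      positivity
    have hrepBi : ∀ d ∈ dif Bi, 2 ^ i ≤ rep Bi d := by
      intro d hd
      obtain ⟨q, hq, rfl⟩ := mem_image.1 hd
      have h2 := (mem_filter.1 hq).2
      refine h2.trans (card_le_card ?_)
      intro q' hq'
      obtain ⟨h3, h4⟩ := mem_filter.1 hq'
      refine mem_filter.2 ⟨mem_filter.2 ⟨h3, ?_⟩, h4⟩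
      rw [h4]; exact h2
    have hcore := core hF hsum hε h p hp4 j Bi hne (2 ^ i) Nat.one_le_two_pow hrepBi
      (fun f hf w hw w' hw' hww => by
        have hw1 := image_subset_image (f := lin f) hsub hw
        have hw1' := image_subset_image (f := lin f) hsub hw'
        obtain ⟨l, hl⟩ := Function.ne_iff.1 hww
        exact ⟨l, hp1 f hf _ (lin_pw hw1 l) _ (lin_pw hw1' l) hl⟩)
      (fun a ha b hb hab hne' => by
        have h3 : a.1 ≠ b.1 := by
          intro h4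
          apply hne'
          refine Prod.ext h4 ?_
          rw [h4] at hab
          exact sub_right_injective hab
        obtain ⟨l, hl⟩ := Function.ne_iff.1 h3
        exact ⟨l, hp2 _ (mem_pw.1 (hsub ha) l) _ (mem_pw.1 (hsub hb) l) hl⟩)
    refine hcore.trans ?_
    refine mul_le_mul_of_nonneg_left ?_ hC0
    have h5 : bigF F Bi ≤ bigF F A ^ j := (bigF_mono hsub).trans (bigF_pw F j A)
    calc (bigF F Bi : ℝ) ^ (1 + ε) ≤ ((bigF F A : ℝ) ^ j) ^ (1 + ε) :=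
          Real.rpow_le_rpow (Nat.cast_nonneg _) (by exact_mod_cast h5) (by linarith)
      _ = Y ^ j := by
          rw [hY, ← Real.rpow_natCast, ← Real.rpow_natCast, ← Real.rpow_mul hTr.le,
            ← Real.rpow_mul hTr.le, mul_comm]
  have hcard : B.card < 2 ^ (A.card * j + 1) := by
    have h1 : B.card ≤ A.card ^ j := by
      refine card_image_le.trans ?_
      rw [Fintype.card_piFinset, prod_const, card_univ, Fintype.card_fin]
    have h2 : A.card ^ j ≤ 2 ^ (A.card * j) := by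
      rw [pow_mul]
      exact Nat.pow_le_pow_left (Nat.lt_two_pow_self).le j
    exact (h1.trans h2).trans_lt (Nat.pow_lt_pow_right (by norm_num) (Nat.lt_succ_self _))
  have := dyadic B ε hε (A.card * j) hcard _ hbound
  refine this.trans (le_of_eq ?_)
  push_cast
  ring

/-- the moment inequality implies the sums-differences inequality -/
theorem SDF_of_moment {F : Finset (ℤ × ℤ)} {ε : ℝ} (hε : 0 ≤ ε)
    (h : ∀ A : Finset (ℤ × ℤ), mom A ε ≤ (bigF F A : ℝ) ^ (1 + ε)) : SDF F ε := by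
  intro A
  refine le_trans ?_ (h A)
  unfold mom
  calc ((dif A).card : ℝ) = ∑ _d ∈ dif A, (1 : ℝ) := by simp
    _ ≤ _ := sum_le_sum fun d hd => by
      obtain ⟨p, hp, hpd⟩ := mem_image.1 hd
      have : 1 ≤ rep A d := card_pos.2 ⟨p, mem_filter.2 ⟨hp, hpd⟩⟩
      exact Real.one_le_rpow (by exact_mod_cast this) hε

end Pool.Agent.Q93.MK
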