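import Pool.Agent.Q93.MK.Slope
import Pool.Agent.Q93.CV.Abs

set_option autoImplicit false

open Finset Filter Topology

namespace Pool.Agent.Q93.MK

/-- the set of pairs `(y(d) + d, y(d))` -/
def graph (D : Finset ℤ) (y : D → ℤ) : Finset (ℤ × ℤ) :=
  univ.image fun d : D => ((d : ℤ) + y d, y d)

/-- the number of choices `y : D → P` all of whose projections have at most `K` elements -/
noncomputable def bad (S : Finset ℚ) (D P : Finset ℤ) (K : ℝ) : ℕ :=
  ((Fintype.piFinset fun _ : D => P).filter fun y => (big S (graph D y) : ℝ) ≤ K).card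

lemma bad_mono (S : Finset ℚ) (D P : Finset ℤ) {K L : ℝ} (h : K ≤ L) :
    bad S D P K ≤ bad S D P L := by
  unfold bad
  refine card_le_card fun y hy => ?_
  rw [mem_filter] at hy ⊢
  exact ⟨hy.1, hy.2.trans h⟩

/-- all pairs `(d + t, t)` -/
def allp (D P : Finset ℤ) : Finset (ℤ × ℤ) := (D ×ˢ P).image fun q => (q.1 + q.2, q.2)

lemma card_powerset_small {ι : Type*} [DecidableEq ι] (Ω : Finset ι) (K : ℕ) :
    (Ω.powerset.filter fun U => U.card ≤ K).card ≤ (Ω.card + 1) ^ K := by
  classical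
  have h := Pool.Agent.Q93.CV.card_small (ι := Fin Ω.card) K
  rw [Fintype.card_fin] at h
  refine le_trans ?_ h
  set e := Ω.equivFin with he
  refine card_le_card_of_injOn (fun U => univ.filter fun i => ((e.symm i : Ω) : ι) ∈ U) ?_ ?_
  · intro U hU
    rw [mem_coe, mem_filter] at hU
    rw [mem_coe, mem_filter]
    refine ⟨mem_univ _, le_trans ?_ hU.2⟩
    refine card_le_card_of_injOn (fun i => ((e.symm i : Ω) : ι)) ?_ ?_
    · intro i hi
      exact (mem_filter.1 (mem_coe.1 hi)).2
    · intro i _ i' _ hii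
      exact e.symm.injective (Subtype.ext hii)
  · intro U hU U' hU' hUU
    rw [mem_coe, mem_filter, mem_powerset] at hU hU'
    ext x
    constructor
    · intro hx
      have hxΩ := hU.1 hx
      have h1 : e ⟨x, hxΩ⟩ ∈ univ.filter fun i => ((e.symm i : Ω) : ι) ∈ U := by
        simp [hx]
      simp only at hUU
      rw [hUU] at h1
      simpa using h1
    · intro hx
      have hxΩ := hU'.1 hx
      have h1 : e ⟨x, hxΩ⟩ ∈ univ.filter fun i => ((e.symm i : Ω) : ι) ∈ U' := by
        simp [hx]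
      simp only at hUU
      rw [← hUU] at h1
      simpa using h1

/-- **the number of bad choices, upper bound** -/
theorem bad_le {S : Finset ℚ} (hS : (-1 : ℚ) ∉ S) {ε : ℝ} (hε : 0 < ε) (h : SD S ε)
    (D P : Finset ℤ) (hD : D.Nonempty) (K : ℕ) :
    (bad S D P K : ℝ) ≤
      ((D.card * P.card + 1 : ℕ) : ℝ) ^ ((S.card + 1) * K) *
        (((K : ℝ) ^ (1 + ε) / D.card) ^ (1 / ε)) ^ D.card := by
  classical
  set F := forms S with hF
  set N := D.card with hN
  have hNr : (0 : ℝ) < N := by exact_mod_cast card_pos.2 hD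
  set X : ℝ := ((K : ℝ) ^ (1 + ε) / N) ^ (1 / ε) with hX
  have hX0 : 0 ≤ X := by positivity
  set Ω : ℤ × ℤ → Finset ℤ := fun f => (allp D P).image (lin f) with hΩ
  have hΩc : ∀ f, (Ω f).card ≤ N * P.card := by
    intro f
    refine card_image_le.trans (card_image_le.trans ?_)
    rw [card_product]
  -- the tuples of small sets
  set 𝒰 : Finset (F → Finset ℤ) := Fintype.piFinset fun f : F =>
    (Ω (f : ℤ × ℤ)).powerset.filter fun U => U.card ≤ K with h𝒰
  have h𝒰c : 𝒰.card ≤ (N * P.card + 1) ^ ((S.card + 1) * K) := by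
    rw [h𝒰, Fintype.card_piFinset]
    calc ∏ f : F, ((Ω (f : ℤ × ℤ)).powerset.filter fun U => U.card ≤ K).card
        ≤ ∏ _f : F, (N * P.card + 1) ^ K := by
          refine prod_le_prod' fun f _ => (card_powerset_small _ K).trans ?_
          exact Nat.pow_le_pow_left (Nat.succ_le_succ (hΩc _)) K
      _ = ((N * P.card + 1) ^ K) ^ F.card := by
          rw [prod_const, card_univ, Fintype.card_coe]
      _ = (N * P.card + 1) ^ (F.card * K) := by rw [← pow_mul, mul_comm K]
      _ ≤ (N * P.card + 1) ^ ((S.card + 1) * K) := by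
          refine Nat.pow_le_pow_right (Nat.succ_pos _) (Nat.mul_le_mul_right _ ?_)
          refine (card_insert_le _ _).trans ?_
          exact Nat.succ_le_succ card_image_le
  -- fibres
  let fib : (F → Finset ℤ) → Finset (D → ℤ) := fun U =>
    Fintype.piFinset fun d : D => P.filter fun t => ∀ f : F, lin (f : ℤ × ℤ) ((d : ℤ) + t, t) ∈ U f
  have hcover : ((Fintype.piFinset fun _ : D => P).filter
      fun y => (big S (graph D y) : ℝ) ≤ (K : ℝ)) ⊆ 𝒰.biUnion fib := by
    intro y hy
    obtain ⟨hyP, hyK⟩ := mem_filter.1 hy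
    have hyP' := Fintype.mem_piFinset.1 hyP
    have hyK' : bigF F (graph D y) ≤ K := by rw [hF, bigF_forms]; exact_mod_cast hyK
    refine mem_biUnion.2 ⟨fun f => (graph D y).image (lin (f : ℤ × ℤ)), ?_, ?_⟩
    · refine Fintype.mem_piFinset.2 fun f => mem_filter.2 ⟨mem_powerset.2 ?_, ?_⟩
      · refine image_subset_image ?_
        intro q hq
        obtain ⟨d, _, rfl⟩ := mem_image.1 hq
        exact mem_image.2 ⟨((d : ℤ), y d), mem_product.2 ⟨d.2, hyP' d⟩, rfl⟩
      · exact (le_bigF f.2).trans hyK'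
    · refine Fintype.mem_piFinset.2 fun d => mem_filter.2 ⟨hyP' d, fun f => ?_⟩
      exact mem_image_of_mem _ (mem_image_of_mem _ (mem_univ d))
  -- size of a fibre
  have hfib : ∀ U ∈ 𝒰, ((fib U).card : ℝ) ≤ X ^ N := by
    intro U hU
    have hU' := Fintype.mem_piFinset.1 hU
    set A : Finset (ℤ × ℤ) := (allp D P).filter fun q => ∀ f : F, lin (f : ℤ × ℤ) q ∈ U f with hA
    have hbigA : bigF F A ≤ K := by
      refine Finset.sup_le fun f hf => ?_
      refine (card_le_card (t := U ⟨f, hf⟩) ?_).trans (mem_filter.1 (hU' ⟨f, hf⟩)).2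
      intro w hw
      obtain ⟨q, hq, rfl⟩ := mem_image.1 hw
      exact (mem_filter.1 hq).2 ⟨f, hf⟩
    have hrepA : ∀ d : D, (P.filter fun t => ∀ f : F, lin (f : ℤ × ℤ) ((d : ℤ) + t, t) ∈ U f).card
        ≤ rep A (d : ℤ) := by
      intro d
      unfold rep
      refine card_le_card_of_injOn (fun t => ((d : ℤ) + t, t)) ?_ ?_
      · intro t ht
        obtain ⟨h1, h2⟩ := mem_filter.1 (mem_coe.1 ht)
        refine mem_coe.2 (mem_filter.2 ⟨mem_filter.2 ⟨?_, h2⟩, by simp⟩)
        exact mem_image.2 ⟨((d : ℤ), t), mem_product.2 ⟨d.2, h1⟩, rfl⟩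
      · intro t _ t' _ htt
        exact (Prod.mk.inj htt).2
    have hmom : mom A ε ≤ (K : ℝ) ^ (1 + ε) := by
      refine (moment (forms_nonempty S) (forms_sum S hS) hε.le ((SD_iff S ε).1 h) A).trans ?_
      exact Real.rpow_le_rpow (Nat.cast_nonneg _) (by exact_mod_cast hbigA) (by linarith)
    -- sum over D
    have hsum : ∑ d : D, ((rep A (d : ℤ) : ℝ)) ^ ε ≤ (K : ℝ) ^ (1 + ε) := by
      refine le_trans ?_ hmom
      unfold mom
      have e1 : ∑ d : D, ((rep A (d : ℤ) : ℝ)) ^ ε = ∑ d ∈ D, (rep A d : ℝ) ^ ε :=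
        sum_coe_sort D (fun d => (rep A d : ℝ) ^ ε)
      rw [e1]
      have e2 : ∑ d ∈ D, (rep A d : ℝ) ^ ε =
          ∑ d ∈ D.filter (fun d => d ∈ dif A), (rep A d : ℝ) ^ ε := by
        rw [sum_filter]
        refine sum_congr rfl fun d _ => ?_
        split_ifs with hd
        · rfl
        · have : rep A d = 0 := by
            unfold rep
            rw [card_eq_zero, filter_eq_empty_iff]
            intro q hq hqd
            exact hd (mem_image.2 ⟨q, hq, hqd⟩)
          rw [this, Nat.cast_zero, Real.zero_rpow hε.ne']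
      rw [e2]
      refine sum_le_sum_of_subset_of_nonneg (fun d hd => (mem_filter.1 hd).2) fun d _ _ => ?_
      positivity
    have hDc : (univ : Finset D).card = N := by rw [card_univ, Fintype.card_coe]
    have hprod : ∏ d : D, ((rep A (d : ℤ) : ℝ)) ^ ε ≤ ((K : ℝ) ^ (1 + ε) / N) ^ N := by
      have := Pool.Agent.Q93.CV.prod_le_pow (univ : Finset D)
        (fun d => ((rep A (d : ℤ) : ℝ)) ^ ε) (fun d _ => by positivity)
        (by rw [hDc]; exact card_pos.2 hD) (t := (K : ℝ) ^ (1 + ε) / N)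
        (by rw [hDc, div_mul_cancel₀ _ hNr.ne']; exact hsum)
      rw [hDc] at this
      exact this
    have h1 : ((fib U).card : ℝ) ≤ ∏ d : D, (rep A (d : ℤ) : ℝ) := by
      have : (fib U).card ≤ ∏ d : D, rep A (d : ℤ) := by
        show (Fintype.piFinset _).card ≤ _
        rw [Fintype.card_piFinset]
        exact prod_le_prod' fun d _ => hrepA d
      exact_mod_cast this
    refine h1.trans ?_
    have h2 : ∏ d : D, (rep A (d : ℤ) : ℝ) = (∏ d : D, ((rep A (d : ℤ) : ℝ)) ^ ε) ^ (1 / ε) := by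
      rw [Real.finsetProd_rpow _ _ fun d _ => Nat.cast_nonneg _, ← Real.rpow_mul
        (prod_nonneg fun d _ => Nat.cast_nonneg _), mul_one_div_cancel hε.ne', Real.rpow_one]
    rw [h2]
    calc (∏ d : D, ((rep A (d : ℤ) : ℝ)) ^ ε) ^ (1 / ε)
        ≤ (((K : ℝ) ^ (1 + ε) / N) ^ N) ^ (1 / ε) :=
          Real.rpow_le_rpow (prod_nonneg fun d _ => by positivity) hprod (by positivity)
      _ = X ^ N := by
          rw [hX, ← Real.rpow_natCast, ← Real.rpow_natCast, ← Real.rpow_mul (by positivity),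
            ← Real.rpow_mul (by positivity), mul_comm]
  -- total
  calc (bad S D P K : ℝ) ≤ ((𝒰.biUnion fib).card : ℝ) := by
        have h3 : bad S D P K ≤ (𝒰.biUnion fib).card := card_le_card hcover
        exact_mod_cast h3
    _ ≤ ∑ U ∈ 𝒰, ((fib U).card : ℝ) := by exact_mod_cast card_biUnion_le
    _ ≤ ∑ _U ∈ 𝒰, X ^ N := sum_le_sum hfib
    _ = (𝒰.card : ℝ) * X ^ N := by rw [sum_const, nsmul_eq_mul]
    _ ≤ ((N * P.card + 1 : ℕ) : ℝ) ^ ((S.card + 1) * K) * X ^ N := by
        refine mul_le_mul_of_nonneg_right ?_ (pow_nonneg hX0 _)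
        exact_mod_cast h𝒰c

end Pool.Agent.Q93.MK
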