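import Pool.Agent.Q93.MK.Hash

set_option autoImplicit false

open Finset

namespace Pool.Agent.Q93.MK

/-- the sums-differences inequality with exponent `1 + ε` for the forms in `F` -/
def SDF (F : Finset (ℤ × ℤ)) (ε : ℝ) : Prop :=
  ∀ A : Finset (ℤ × ℤ), ((dif A).card : ℝ) ≤ (bigF F A : ℝ) ^ (1 + ε)

/-- the hash functions -/
def hashHom (p j k : ℕ) :
    (Fin k → Fin j → ZMod p) →+ ((Fin j → ℤ) →+ (Fin k → ZMod p)) :=
  AddMonoidHom.mk' (fun a => AddMonoidHom.mk' (fun v i => ∑ l, a i l * ((v l : ℤ) : ZMod p))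
    (fun v w => funext fun i => by simp [mul_add, sum_add_distrib]))
    (fun a b => AddMonoidHom.ext fun v => funext fun i => by simp [add_mul, sum_add_distrib])

lemma hashHom_apply (p j k : ℕ) (a : Fin k → Fin j → ZMod p) (v : Fin j → ℤ) (i : Fin k) :
    hashHom p j k a v i = ∑ l, a i l * ((v l : ℤ) : ZMod p) := rfl

lemma hash_surj (p j k : ℕ) [Fact p.Prime] (v : Fin j → ℤ) (l : Fin j)
    (hl : ((v l : ℤ) : ZMod p) ≠ 0) : Function.Surjective fun a => hashHom p j k a v := by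
  intro w
  refine ⟨fun i l' => if l' = l then w i * ((v l : ℤ) : ZMod p)⁻¹ else 0, ?_⟩
  funext i
  show hashHom p j k _ v i = w i
  rw [hashHom_apply]
  simp [ite_mul, hl]

/-- a homomorphism to the integers that is injective on a given finite set -/
lemma exists_inj (j : ℕ) (X : Finset (Fin j → ℤ)) :
    ∃ ψ : (Fin j → ℤ) →+ ℤ, Set.InjOn ψ X := by
  classical
  let P : (Fin j → ℤ) → Polynomial ℤ := fun v => ∑ i : Fin j, Polynomial.C (v i) * Polynomial.X ^ (i : ℕ)
  have hcoef : ∀ (v : Fin j → ℤ) (i : Fin j), (P v).coeff i = v i := by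
    intro v i
    simp only [P, Polynomial.finsetSum_coeff, Polynomial.coeff_C_mul, Polynomial.coeff_X_pow]
    rw [Finset.sum_eq_single i]
    · simp
    · intro b _ hb
      rw [if_neg, mul_zero]
      intro h
      exact hb (Fin.ext h.symm)
    · intro h; exact absurd (mem_univ _) h
  have hP0 : ∀ v : Fin j → ℤ, v ≠ 0 → P v ≠ 0 := by
    intro v hv h
    apply hv
    funext i
    rw [← hcoef v i, h]; simp
  set R : Polynomial ℤ := ∏ q ∈ (X ×ˢ X).filter (fun q => q.1 ≠ q.2), P (q.1 - q.2) with hR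
  have hR0 : R ≠ 0 := by
    rw [hR]
    refine prod_ne_zero_iff.2 fun q hq => hP0 _ ?_
    exact sub_ne_zero.2 (mem_filter.1 hq).2
  obtain ⟨M, hM⟩ : ∃ M : ℤ, R.eval M ≠ 0 := by
    by_contra hcon
    push Not at hcon
    exact hR0 (Polynomial.funext fun M => by rw [hcon M]; simp)
  refine ⟨AddMonoidHom.mk' (fun v => (P v).eval M) ?_, ?_⟩
  · intro v w
    simp [P, Polynomial.eval_finsetSum, add_mul, sum_add_distrib]
  · intro u hu v hv huv
    by_contra hne
    apply hM
    rw [hR, Polynomial.eval_prod]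
    refine prod_eq_zero (i := (u, v)) (mem_filter.2 ⟨mem_product.2 ⟨hu, hv⟩, hne⟩) ?_
    have h1 : (P u).eval M = (P v).eval M := huv
    have h2 : (P (u - v)).eval M = (P u).eval M - (P v).eval M := by
      simp [P, Polynomial.eval_finsetSum, sub_mul, sum_sub_distrib]
    show (P (u - v)).eval M = 0
    rw [h2, h1, sub_self]

/-- transfer of the inequality to vectors -/
lemma SDF_vec {F : Finset (ℤ × ℤ)} {ε : ℝ} (hε : 0 ≤ ε) (h : SDF F ε) (j : ℕ)
    (A : Finset ((Fin j → ℤ) × (Fin j → ℤ))) :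
    ((dif A).card : ℝ) ≤ (bigF F A : ℝ) ^ (1 + ε) := by
  classical
  obtain ⟨ψ, hψ⟩ := exists_inj j (dif A)
  set A' : Finset (ℤ × ℤ) := A.image (fun q => (ψ q.1, ψ q.2)) with hA'
  have h1 : dif A' = (dif A).image ψ := by
    unfold dif
    rw [hA', image_image, image_image]
    refine image_congr fun q _ => ?_
    simp
  have h2 : (dif A').card = (dif A).card := by
    rw [h1]; exact card_image_of_injOn hψ
  have h3 : bigF F A' ≤ bigF F A := by
    unfold bigF
    refine Finset.sup_mono_fun fun f _ => ?_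
    have : A'.image (lin f) = (A.image (lin f)).image ψ := by
      rw [hA', image_image, image_image]
      refine image_congr fun q _ => ?_
      exact (lin_hom ψ f q).symm
    rw [this]
    exact card_image_le
  calc ((dif A).card : ℝ) = ((dif A').card : ℝ) := by rw [h2]
    _ ≤ (bigF F A' : ℝ) ^ (1 + ε) := h A'
    _ ≤ (bigF F A : ℝ) ^ (1 + ε) :=
      Real.rpow_le_rpow (Nat.cast_nonneg _) (Nat.cast_le.2 h3) (by linarith)

lemma rep_le_bigF {j : ℕ} {F : Finset (ℤ × ℤ)} {f : ℤ × ℤ} (hf : f ∈ F) (hf0 : f.1 + f.2 ≠ 0)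
    (B : Finset ((Fin j → ℤ) × (Fin j → ℤ))) (d : Fin j → ℤ) : rep B d ≤ bigF F B := by
  refine le_trans ?_ (le_bigF hf)
  unfold rep
  rw [← card_image_of_injOn (s := B.filter fun p => p.1 - p.2 = d) (f := lin f) ?_]
  · exact card_le_card (image_subset_image (filter_subset _ _))
  · intro p hp q hq hpq
    have hp' := (mem_filter.1 (mem_coe.1 hp)).2
    have hq' := (mem_filter.1 (mem_coe.1 hq)).2
    have e1 : p.1 = q.1 := by
      funext l
      have a1 := congrFun hp' l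
      have a2 := congrFun hq' l
      have a3 := congrFun hpq l
      simp only [lin, Pi.add_apply, Pi.smul_apply, smul_eq_mul, Pi.sub_apply] at a1 a2 a3
      have : (f.1 + f.2) * (p.1 l - q.1 l) = 0 := by
        have b1 : p.2 l = p.1 l - d l := by linarith
        have b2 : q.2 l = q.1 l - d l := by linarith
        rw [b1, b2] at a3
        linear_combination a3
      rcases mul_eq_zero.1 this with h | h
      · exact absurd h hf0
      · linarith
    have e2 : p.2 = q.2 := by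
      have : p.1 - p.2 = q.1 - q.2 := hp'.trans hq'.symm
      rw [e1] at this
      exact sub_right_injective this
    exact Prod.ext e1 e2

/-- the inequality with multiplicities, up to a constant -/
lemma core {F : Finset (ℤ × ℤ)} (hF : F.Nonempty) (hsum : ∀ f ∈ F, f.1 + f.2 ≠ 0) {ε : ℝ}
    (hε : 0 ≤ ε) (h : SDF F ε) (p : ℕ) [Fact p.Prime] (hp : 4 ≤ p) (j : ℕ)
    (B : Finset ((Fin j → ℤ) × (Fin j → ℤ))) (hB : B.Nonempty) (m : ℕ) (hm : 1 ≤ m)
    (hrep : ∀ d ∈ dif B, m ≤ rep B d)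
    (h1 : ∀ f ∈ F, ∀ w ∈ B.image (lin f), ∀ w' ∈ B.image (lin f), w ≠ w' →
      ∃ l, (((w - w') l : ℤ) : ZMod p) ≠ 0)
    (h2 : ∀ a ∈ B, ∀ b ∈ B, a.1 - a.2 = b.1 - b.2 → a ≠ b →
      ∃ l, (((a.1 - b.1) l : ℤ) : ZMod p) ≠ 0) :
    ((dif B).card : ℝ) * (m : ℝ) ^ ε ≤
      2 * p * (p + 4 * F.card : ℝ) ^ (1 + ε) * (bigF F B : ℝ) ^ (1 + ε) := by
  classical
  set e := Nat.log p m with he
  set g := p ^ e with hg
  set Q := p ^ (e + 1) with hQ
  set T := bigF F B with hT
  have hp1 : 1 < p := by omega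
  have hgm : g ≤ m := Nat.pow_log_le_self p (by omega)
  have hmQ : m < Q := Nat.lt_pow_succ_log_self hp1 m
  have hQg : Q = g * p := pow_succ p e
  have hg0 : 0 < g := pow_pos (by omega) _
  have hQ0 : 0 < Q := pow_pos (by omega) _
  have hcardW : Fintype.card (Fin (e + 1) → ZMod p) = Q := by
    rw [Fintype.card_fun, ZMod.card, Fintype.card_fin]
  obtain ⟨C, hCB, hC1, hC2⟩ := hash (hashHom p j (e + 1)) F hF B hB g hg0
    (fun d hd => hgm.trans (hrep d hd))
    (by rw [hcardW, hQg, mul_comm]; exact Nat.mul_le_mul_left _ hp)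
    (fun f hf w hw w' hw' hne => by
      obtain ⟨l, hl⟩ := h1 f hf w hw w' hw' hne
      exact hash_surj p j (e + 1) _ l hl)
    (fun a ha b hb hab hne => by
      obtain ⟨l, hl⟩ := h2 a ha b hb hab hne
      exact hash_surj p j (e + 1) _ l hl)
  rw [hcardW] at hC1
  have hTm : m ≤ T := by
    obtain ⟨f, hf⟩ := hF
    obtain ⟨b, hb⟩ := hB
    exact (hrep _ (mem_image_of_mem _ hb)).trans (rep_le_bigF hf (hsum f hf) B _)
  have hbig : Q * bigF F C ≤ (p + 4 * F.card) * T := by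
    obtain ⟨f, hf, hfe⟩ := exists_mem_eq_sup F hF (fun f => (C.image (lin f)).card)
    have := hC2 f hf
    rw [hcardW] at this
    have hb : bigF F C = (C.image (lin f)).card := hfe
    rw [hb]
    calc Q * (C.image (lin f)).card ≤ Q + 4 * F.card * T := this
      _ ≤ p * T + 4 * F.card * T := by
        refine Nat.add_le_add_right ?_ _
        rw [hQg, mul_comm]
        exact Nat.mul_le_mul_left _ (hgm.trans hTm)
      _ = (p + 4 * F.card) * T := by ring
  have hSD := SDF_vec hε h j C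
  -- real numbers
  have hgr : (0 : ℝ) < g := by exact_mod_cast hg0
  have hQr : (0 : ℝ) < Q := by exact_mod_cast hQ0
  have hpr : (0 : ℝ) < p := by exact_mod_cast (by omega : 0 < p)
  have hc : (0 : ℝ) ≤ (p + 4 * F.card : ℝ) := by positivity
  have hbr : (bigF F C : ℝ) ≤ (p + 4 * F.card : ℝ) * T / Q := by
    rw [le_div_iff₀ hQr, mul_comm]
    exact_mod_cast hbig
  have h3 : ((dif C).card : ℝ) ≤
      (p + 4 * F.card : ℝ) ^ (1 + ε) * (T : ℝ) ^ (1 + ε) / (Q : ℝ) ^ (1 + ε) := by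
    refine hSD.trans ((Real.rpow_le_rpow (Nat.cast_nonneg _) hbr (by linarith)).trans ?_)
    rw [Real.div_rpow (by positivity) hQr.le, Real.mul_rpow hc (Nat.cast_nonneg _)]
  have h4 : ((dif B).card : ℝ) * g ≤ 2 * (Q : ℝ) ^ 2 * (dif C).card := by exact_mod_cast hC1
  have hQr1 : (Q : ℝ) = g * p := by exact_mod_cast hQg
  have hrpow : (Q : ℝ) ^ (1 + ε) = Q * (Q : ℝ) ^ ε := by
    rw [Real.rpow_add hQr, Real.rpow_one]
  have hQe : (0 : ℝ) < (Q : ℝ) ^ ε := Real.rpow_pos_of_pos hQr _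
  have h5 : ((dif B).card : ℝ) * (Q : ℝ) ^ ε ≤
      2 * p * (p + 4 * F.card : ℝ) ^ (1 + ε) * (T : ℝ) ^ (1 + ε) := by
    set X := (p + 4 * F.card : ℝ) ^ (1 + ε) * (T : ℝ) ^ (1 + ε) with hX
    have h6 : ((dif C).card : ℝ) * (Q * (Q : ℝ) ^ ε) ≤ X := by
      rw [hrpow, le_div_iff₀ (by positivity)] at h3
      exact h3
    have h7 : ((dif B).card : ℝ) * (Q : ℝ) ^ ε * (g * Q) ≤ (2 * p * X) * (g * Q) := by
      calc ((dif B).card : ℝ) * (Q : ℝ) ^ ε * (g * Q)
          = (((dif B).card : ℝ) * g) * (Q * (Q : ℝ) ^ ε) := by ring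
        _ ≤ (2 * (Q : ℝ) ^ 2 * (dif C).card) * (Q * (Q : ℝ) ^ ε) :=
            mul_le_mul_of_nonneg_right h4 (by positivity)
        _ = 2 * (Q : ℝ) ^ 2 * ((dif C).card * (Q * (Q : ℝ) ^ ε)) := by ring
        _ ≤ 2 * (Q : ℝ) ^ 2 * X := mul_le_mul_of_nonneg_left h6 (by positivity)
        _ = (2 * p * X) * (g * Q) := by rw [hQr1]; ring
    have h8 := le_of_mul_le_mul_right h7 (by positivity)
    calc ((dif B).card : ℝ) * (Q : ℝ) ^ ε ≤ 2 * p * X := h8
      _ = _ := by rw [hX]; ring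
  refine le_trans (mul_le_mul_of_nonneg_left ?_ (Nat.cast_nonneg _)) h5
  exact Real.rpow_le_rpow (Nat.cast_nonneg _) (by exact_mod_cast hmQ.le) hε

end Pool.Agent.Q93.MK
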